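import Pool.Agent.Lib.MP_688fd0_co.TF.H57.Brg6

/-!
# Theorem F (port of TE), the end: the two phases of 7.4 and the Hamiltonian cycle
-/

namespace Pool.Agent.Lib.MP_688fd0_co.TF

open Pool.Agent.Lib.MP_688fd0_co.TE

open Pool.Agent.Lib.MP_688fd0_co

universe u

section

variable {G : Type u} [Group G] [Fintype G] [DecidableEq G] {c : Ctx G} {N : ℕ} (g : Gad c N)

/-- The initial invariants. -/
theorem Gad.sta0 {m : ℕ} {lv : G → ZMod m} (Fp : Equiv.Perm g.Tk)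
    (hF : ∀ t, g.arc lv (g.gs.vx (t, false)) (g.gs.vx (Fp t, true))) :
    g.Sta Fp 0 (edgB Fp) (fun _ => []) (fun _ => False) (fun _ => False) := by
  refine ⟨St.init g.gs Fp (fun t => g.arc_adj (hF t)), fun _ _ => id, fun _ _ _ => rfl, ?_, ?_,
    ?_, ?_⟩
  · intro p v hv
    simp [flat] at hv
  · intro τ x y _ _
    have h1 : TE.Pr (g.res.Rl τ x y) (fun _ => ∃ _ : Fin (3 * c.k + 1), False) = 0 := by
      unfold TE.Pr
      apply Finset.sum_eq_zero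
      intro z _
      rw [ind_not (by simp), mul_zero]
    rw [h1]
    simp
  · intro M _ y
    have h1 : ∑ x, ind False * M y x = 0 := by
      apply Finset.sum_eq_zero
      intro z _
      rw [ind_not id, zero_mul]
    rw [h1]
    simp
  · intro v _
    simp

theorem Ctx.Light.mono {c : Ctx G} {N : ℕ} {W : G → Prop} {δ δ' : ℝ} (h : c.Light N W δ)
    (hd : δ ≤ δ') : c.Light N W δ' := fun M hM y => (h M hM y).trans hd

/-- Phase 1. -/
theorem Gad.phase1 (hPKS : ∀ N M, c.PK N M → SS M) (hnm : c.Nm) (hISO1 : ISO1F_S.{u})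
    (hRND : RNDF_S.{u}) (hN : 6 ≤ N) {m : ℕ}
    (hm : c.mOK m) (hm8 : 8 ≤ m) {lv : G → ZMod m}
    (io : ∀ τ, ∀ e ∈ g.res.E τ, lv (g.i τ e) = lv (g.o τ e))
    (one : ∀ e ∈ g.res.E true, lv (g.i true e) = 0) (Fp : Equiv.Perm g.Tk)
    (hF : ∀ t, g.arc lv (g.gs.vx (t, false)) (g.gs.vx (Fp t, true))) (r : ℕ) :
    r ≤ 2 * c.k → ∃ (Φ : g.Pt → g.Pt) (seg : g.Pt → List (G × G)) (Un : G → Prop)
      (UE : G × G → Prop), g.Sta Fp r Φ seg Un UE ∧
      ∀ v0, ncl (Rel2 Φ flipB) (g.vp (fun v => v0⁻¹ * v ∈ c.H)) ≤ 2 ^ (2 * c.k - r) := by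
  classical
  have hX : (1 : ℝ) ≤ c.X := le_trans (by norm_num) hnm.x1
  have hX0 : (0 : ℝ) < c.X := by linarith
  have hb0 : (0 : ℝ) < c.b := lt_of_lt_of_le (by positivity) hnm.b
  have hm0 : (0 : ℝ) < m := by exact_mod_cast (by omega : 0 < m)
  induction r with
  | zero =>
    intro _
    exact ⟨_, _, _, _, g.sta0 Fp hF, fun v0 => g.vp_card _ _⟩
  | succ r ih =>
    intro hr
    obtain ⟨Φ, seg, Un, UE, h, hn⟩ := ih (by omega)
    have hr4 : r ≤ 4 * c.k := by omega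
    have hlight : c.Light 4 Un (1 / c.X ^ 50) :=
      h.i2.mono (hnm.r_small hr4 900 50 (by norm_num))
    have hZ3 : ∀ x y z : G, x⁻¹ * y ∈ c.H → y⁻¹ * z ∈ c.H → x⁻¹ * z ∈ c.H := by
      intro x y z h1 h2
      have h3 : x⁻¹ * z = (x⁻¹ * y) * (y⁻¹ * z) := by group
      rw [h3]
      exact c.H.mul_mem h1 h2
    have hZ2 : ∀ x y : G, x⁻¹ * y ∈ c.H → y⁻¹ * x ∈ c.H := by
      intro x y h1
      have h3 := c.H.inv_mem h1
      rwa [mul_inv_rev, inv_inv] at h3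
    obtain ⟨Φ', seg', Un', UE', g1, g2, g3⟩ := g.crnd hPKS hRND hN hm hm8 io one Fp hF h
      (hnm.r_small hr4 150 100 (by norm_num)) false (fun x y => x⁻¹ * y ∈ c.H)
      (fun x => by
        change x⁻¹ * x ∈ c.H
        rw [inv_mul_cancel]; exact c.H.one_mem) hZ2 hZ3 c.B (fun s hs => hs)
      (c.b * m / c.X ^ 3) (by positivity) (by
        have h1 : ((c.B.card : ℝ)) / (c.b * m / c.X ^ 3) = c.X ^ 3 / m := by
          change c.b / (c.b * m / c.X ^ 3) = _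
          field_simp
        rw [h1]
        simp only [Bool.false_eq_true, if_false]
        rw [div_le_div_iff₀ hm0 (by positivity), one_mul, ← pow_add]
        exact (pow_le_pow_right₀ hX (by norm_num)).trans hm.1)
      (by
        rintro v hv ⟨w, hw, hvw, hnr⟩
        let S : Finset G := Finset.univ.filter (fun x => ¬ g.W x ∧ ¬ Un x ∧ v⁻¹ * x ∈ c.H ∧
          g.rv Φ v x)
        let S1 : Finset G := Finset.univ.filter (fun x => ¬ g.W x ∧ ¬ Un x ∧ v⁻¹ * x ∈ c.H ∧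
          ¬ g.rv Φ v x)
        have hS : ∀ x, x ∈ S ↔ ¬ g.W x ∧ ¬ Un x ∧ v⁻¹ * x ∈ c.H ∧ g.rv Φ v x := by
          intro x
          simp only [S, Finset.mem_filter, Finset.mem_univ, true_and]
        have hS1 : ∀ x, x ∈ S1 ↔ ¬ g.W x ∧ ¬ Un x ∧ v⁻¹ * x ∈ c.H ∧ ¬ g.rv Φ v x := by
          intro x
          simp only [S1, Finset.mem_filter, Finset.mem_univ, true_and]
        have h1 := hISO1 G c N g m Un v S S1 hN hm hlight
          (by
            rw [Finset.disjoint_left]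
            intro x hx hx'
            rw [hS] at hx
            rw [hS1] at hx'
            exact hx'.2.2.2 hx.2.2.2)
          (by
            intro x
            rw [Finset.mem_union, hS, hS1]
            tauto)
          (g.avail hm8 io one Fp hF h hr4 hv S (by
            intro x hx hux
            obtain ⟨a1, a2, a3⟩ := g.cyc_rv h hx
            exact (hS x).2 ⟨a1, hux, a2, a3⟩))
          (g.avail hm8 io one Fp hF h hr4 hw S1 (by
            intro x hx hux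
            obtain ⟨a1, a2, a3⟩ := g.cyc_rv h hx
            refine (hS1 x).2 ⟨a1, hux, hZ3 _ _ _ hvw a2, ?_⟩
            intro a4
            exact hnr (a4.trans a3.symm)))
        refine ⟨_, h1, ?_⟩
        rintro ⟨x, y⟩ hp
        rw [Finset.mem_filter, Finset.mem_product, hS, hS1] at hp
        obtain ⟨⟨a1, a2⟩, a3⟩ := hp
        exact ⟨⟨a1.1, a1.2.1, a1.2.2.1, a1.2.2.2⟩, ⟨a2.1, a2.2.1, a2.2.2.1, a2.2.2.2⟩, a3⟩)
    refine ⟨Φ', seg', Un', UE', g1, fun v0 => ?_⟩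
    have h2 := hn v0
    have h3 : 2 * c.k - r = (2 * c.k - (r + 1)) + 1 := by omega
    rw [h3] at h2
    exact g.halve1 _ (fun x y => x⁻¹ * y ∈ c.H) (fun v w hv hw => hZ3 _ _ _ (hZ2 _ _ hv) hw)
      (fun v w hv hw => hZ3 _ _ _ hv hw) g2 g3 _ h2

/-- Phase 2. -/
theorem Gad.phase2 (hPKS : ∀ N M, c.PK N M → SS M) (hnm : c.Nm) (hISO2 : ISO2F_S.{u})
    (hRND : RNDF_S.{u}) (hN : 6 ≤ N) {m : ℕ}
    (hm : c.mOK m) (hm8 : 8 ≤ m) {lv : G → ZMod m}
    (io : ∀ τ, ∀ e ∈ g.res.E τ, lv (g.i τ e) = lv (g.o τ e))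
    (one : ∀ e ∈ g.res.E true, lv (g.i true e) = 0) (Fp : Equiv.Perm g.Tk)
    (hF : ∀ t, g.arc lv (g.gs.vx (t, false)) (g.gs.vx (Fp t, true)))
    (h0 : ∃ (Φ : g.Pt → g.Pt) (seg : g.Pt → List (G × G)) (Un : G → Prop)
      (UE : G × G → Prop), g.Sta Fp (2 * c.k) Φ seg Un UE ∧
      ∀ v0, ncl (Rel2 Φ flipB) (g.vp (fun v => v0⁻¹ * v ∈ c.H)) ≤ 1) (r : ℕ) :
    r ≤ 2 * c.k → ∃ (Φ : g.Pt → g.Pt) (seg : g.Pt → List (G × G)) (Un : G → Prop)
      (UE : G × G → Prop), g.Sta Fp (2 * c.k + r) Φ seg Un UE ∧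
      (∀ x y, ¬ g.W x → ¬ g.W y → x⁻¹ * y ∈ c.H → g.rv Φ x y) ∧
      ncl (Rel2 Φ flipB) (g.vp (fun _ => True)) ≤ 2 ^ (2 * c.k - r) := by
  classical
  have hX : (1 : ℝ) ≤ c.X := le_trans (by norm_num) hnm.x1
  have hX0 : (0 : ℝ) < c.X := by linarith
  have hb0 : (0 : ℝ) < c.b := lt_of_lt_of_le (by positivity) hnm.b
  have : Finite g.Pt := by
    unfold Gad.Pt GS.Port GS.Tok
    infer_instance
  induction r with
  | zero =>
    intro _
    obtain ⟨Φ, seg, Un, UE, h, hn⟩ := h0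
    refine ⟨Φ, seg, Un, UE, h, ?_, g.vp_card _ _⟩
    intro x y hx hy hxy
    refine ⟨hx, hy, ncl_le_one (Rel2.equivalence _ _) (hn x) _ ⟨x, hx, ?_, rfl⟩ _
      ⟨y, hy, hxy, rfl⟩⟩
    change x⁻¹ * x ∈ c.H
    rw [inv_mul_cancel]; exact c.H.one_mem
  | succ r ih =>
    intro hr
    obtain ⟨Φ, seg, Un, UE, h, hcell, hn⟩ := ih (by omega)
    have hr4 : 2 * c.k + r ≤ 4 * c.k := by omega
    have hlight : c.Light 4 Un (1 / c.X ^ 50) :=
      h.i2.mono (hnm.r_small hr4 900 50 (by norm_num))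
    obtain ⟨Φ', seg', Un', UE', g1, g2, g3⟩ := g.crnd hPKS hRND hN hm hm8 io one Fp hF h
      (hnm.r_small hr4 150 100 (by norm_num)) true (fun _ _ => True)
      (fun _ => trivial) (fun _ _ _ => trivial) (fun _ _ _ _ _ => trivial) c.C
      (fun s hs => Finset.mem_union_right _ hs)
      (c.b / c.X ^ 2) (by positivity) (by
        have h1 : ((c.C.card : ℝ)) / (c.b / c.X ^ 2) = c.C.card * c.X ^ 2 / c.b := by
          field_simp
        have h2 : (c.C.card : ℝ) ≤ c.X := by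
          have : (c.C.card : ℝ) ≤ c.k := by exact_mod_cast c.hCc
          linarith [hnm.kx]
        rw [h1]
        simp only [if_true]
        rw [div_le_div_iff₀ hb0 (by positivity), one_mul]
        calc (c.C.card : ℝ) * c.X ^ 2 * c.X ^ 100000 ≤ c.X * c.X ^ 2 * c.X ^ 100000 := by
              gcongr
          _ = c.X ^ 100003 := by ring
          _ ≤ c.X ^ 200000 := pow_le_pow_right₀ hX (by norm_num)
          _ ≤ c.b := hnm.b)
      (by
        rintro v hv ⟨w, hw, -, hnr⟩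
        have h1 := hISO2 G c N g Un (g.rv Φ v) hN hlight
          (by
            intro x y hx hy hxy hvx
            exact hvx.trans (hcell x y hx hy hxy))
          ⟨v, hv, Gad.rv.refl hv⟩ ⟨w, hw, hnr⟩
        refine ⟨_, h1, ?_⟩
        rintro ⟨x, y⟩ hp
        rw [Finset.mem_filter] at hp
        obtain ⟨-, a1, a2, a3⟩ := hp
        exact ⟨⟨a1.1, a1.2.1, trivial, a1.2.2⟩, ⟨a2.1, a2.2.1, trivial, a2.2.2⟩, a3⟩)
    refine ⟨Φ', seg', Un', UE', g1, ?_, ?_⟩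
    · intro x y hx hy hxy
      obtain ⟨_, _, h3⟩ := hcell x y hx hy hxy
      exact ⟨hx, hy, g2 _ _ h3⟩
    · have h3 : 2 * c.k - r = (2 * c.k - (r + 1)) + 1 := by omega
      rw [h3] at hn
      exact g.halve1 _ (fun _ _ => True) (fun _ _ _ _ => trivial) (fun _ _ _ _ => trivial)
        g2 g3 _ hn

end

/-- END. -/
theorem endS (hPKS : PKSF_S.{u}) (hNUM : NUMF_S.{u}) (hISO1 : ISO1F_S.{u}) (hISO2 : ISO2F_S.{u})
    (hRND : RNDF_S.{u}) (hGAD : GADF_S.{u}) (hLEVS : LEVSF_S.{u}) (hHALL : HALLF_S.{u}) :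
    ENDF_S.{u} := by
  classical
  intro G _ _ _ c
  obtain ⟨g⟩ := hGAD G c 30 (by norm_num) (by norm_num)
  have hnm := c.nm hNUM
  have hX : (1 : ℝ) ≤ c.X := le_trans (by norm_num) hnm.x1
  have hP : ∀ N M, c.PK N M → SS M := (hPKS G c).2.2.2.2.1
  -- the number of levels
  have hXm : (1 : ℝ) ≤ c.X ^ 1000 := one_le_pow₀ hX
  have hm : c.mOK ⌈c.X ^ 1000⌉₊ := by
    refine ⟨Nat.le_ceil _, ?_⟩
    have h1 := Nat.ceil_lt_add_one (by linarith : (0 : ℝ) ≤ c.X ^ 1000)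
    linarith
  generalize ⌈c.X ^ 1000⌉₊ = m at hm
  have hm8 : 8 ≤ m := by
    have h1 : (10 ^ 6 : ℝ) ≤ c.X ^ 1000 := hnm.x1.trans (le_self_pow₀ hX (by norm_num))
    have h2 : (8 : ℝ) ≤ m := by linarith [hm.1]
    exact_mod_cast h2
  haveI : NeZero m := ⟨by omega⟩
  obtain ⟨lv, hlv⟩ := hLEVS G c 30 g m (by norm_num) hm
  obtain ⟨F, hF1, hF2, -⟩ := hHALL G c 30 g m lv (by norm_num) hm hlv
  obtain ⟨Fp, hF⟩ := g.exists_perm (a := g.arc lv) F hF1 hF2
  have p1 := g.phase1 hP hnm hISO1 hRND (by norm_num) hm hm8 hlv.io hlv.one Fp hF (2 * c.k) le_rfl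
  rw [Nat.sub_self, pow_zero] at p1
  have p2 := g.phase2 hP hnm hISO2 hRND (by norm_num) hm hm8 hlv.io hlv.one Fp hF p1 (2 * c.k)
    le_rfl
  rw [Nat.sub_self, pow_zero] at p2
  obtain ⟨Φ, seg, Un, UE, h, -, hn⟩ := p2
  have : Finite g.Pt := by
    unfold Gad.Pt GS.Port GS.Tok
    infer_instance
  -- every port is related to the port of a vertex outside the gadgets
  have hport : ∀ p : g.Pt, ∃ v, ∃ hv : ¬ g.W v, Rel2 Φ flipB p (g.tv v hv, false) := by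
    rintro ⟨t, b⟩
    rcases (g.lvI hlv.io hlv.one Fp hF).alt t with ⟨v, hv⟩ | ⟨v, hv⟩
    · refine ⟨v.1, g.mem_V'.1 v.2, ?_⟩
      rw [hv]
      exact rel_port _ _ _
    · refine ⟨v.1, g.mem_V'.1 v.2, ?_⟩
      have h1 := h.mono _ _ (rel_next Fp t b false)
      rw [hv] at h1
      exact h1
  have hall : ∀ p q : g.Pt, Rel2 Φ flipB p q := by
    intro p q
    obtain ⟨v, hv, h1⟩ := hport p
    obtain ⟨w, hw, h2⟩ := hport q
    have h3 := ncl_le_one (Rel2.equivalence _ _) hn _ ⟨v, hv, trivial, rfl⟩ _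
      ⟨w, hw, trivial, rfl⟩
    exact (h1.trans h3).trans h2.symm
  have ha : Nonempty g.Pt := by
    by_cases h1 : g.W 1
    · obtain ⟨τ, e, he, -⟩ := h1
      exact ⟨(Sum.inr ⟨e, τ, he⟩, false)⟩
    · exact ⟨(g.tv 1 h1, false)⟩
  obtain ⟨a⟩ := ha
  exact end_of_state g.gs h.st a (hall a)

/-- ENDF. -/
theorem H57.endf (hPKS : PKSF_S.{u}) (hNUM : NUMF_S.{u}) (hISO1 : ISO1F_S.{u})
    (hISO2 : ISO2F_S.{u}) (hRND : RNDF_S.{u}) (hGAD : GADF_S.{u}) (hLEVS : LEVSF_S.{u})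
    (hHALL : HALLF_S.{u}) : ENDF_S.{u} := endS hPKS hNUM hISO1 hISO2 hRND hGAD hLEVS hHALL

end Pool.Agent.Lib.MP_688fd0_co.TF
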