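import Pool.Agent.Lib.MP_688fd0_co.TF.H80.AvgF

/-! Theorem F, module ETHF (port of TE ETH). -/

namespace Pool.Agent.Lib.MP_688fd0_co.TF.H57

open Pool.Agent.Lib.MP_688fd0_co.TE Pool.Agent.Lib.MP_688fd0_co.TE.H15
open Pool.Agent.Lib.MP_688fd0_co.TF

universe u

section

variable {G : Type u} [Group G] [Fintype G] [DecidableEq G]

/-- a family of kernels against `θ`. -/
theorem row_side3 {ι : Type*} [Fintype ι] (θ1 : G → ℝ) (B : Matrix G G ℝ) (K : ι → G → ℝ)
    (θ' : ℝ) (E : ι → ℝ) (hE : ∀ i, 0 ≤ E i)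
    (h : ∀ i, ∑ x, θ1 x * ∑ z, B x z * K i z ≤ θ') :
    ∑ x, θ1 x * ∑ z, B x z * ∑ i, K i z * E i ≤ θ' * ∑ i, E i := by
  have e : ∑ x, θ1 x * ∑ z, B x z * ∑ i, K i z * E i =
      ∑ i, (∑ x, θ1 x * ∑ z, B x z * K i z) * E i := by
    have : ∀ x, θ1 x * ∑ z, B x z * ∑ i, K i z * E i =
        ∑ i, (θ1 x * ∑ z, B x z * K i z) * E i := by
      intro x
      simp only [Finset.mul_sum, Finset.sum_mul]
      rw [Finset.sum_comm]
      exact Finset.sum_congr rfl fun i _ => Finset.sum_congr rfl fun z _ => by ring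
    rw [Finset.sum_congr rfl fun x _ => this x, Finset.sum_comm]
    refine Finset.sum_congr rfl fun v _ => ?_
    rw [Finset.sum_mul]
  rw [e, Finset.mul_sum]
  exact Finset.sum_le_sum fun v _ => mul_le_mul_of_nonneg_right (h v) (hE v)

theorem pull {f : G → ℝ} (hf : ∑ z, f z = 1) (a d : ℝ) : ∑ z, a * f z * d = a * d := by
  have : ∑ z, a * f z * d = a * d * ∑ z, f z := by
    rw [Finset.mul_sum]
    exact Finset.sum_congr rfl fun z _ => by ring
  rw [this, hf, mul_one]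

theorem pull' {f : G → ℝ} (hf : ∑ z, f z = 1) (a d : ℝ) : ∑ z, f z * a * d = a * d := by
  rw [← pull hf a d]
  exact Finset.sum_congr rfl fun z _ => by ring

theorem sum_swap3 (n : ℕ) (A : G → G → ℝ) (T : ℕ → G → G → ℝ) :
    ∑ j ∈ Finset.range n, ∑ z, ∑ z', A z z' * T j z z' =
      ∑ z, ∑ z', A z z' * ∑ j ∈ Finset.range n, T j z z' := by
  rw [Finset.sum_comm]
  refine Finset.sum_congr rfl fun z _ => ?_
  rw [Finset.sum_comm]
  refine Finset.sum_congr rfl fun z' _ => ?_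
  rw [Finset.mul_sum]

theorem tele_abs (hT : TELEF_S.{u}) (hU : CPLF_S.{u}) (c : Ctx G) (τ : Bool) (f g : G → ℝ)
    (x y : G) (ha : c.adm τ true 100 x y) :
    |f x - g y| ≤ ∑ j ∈ Finset.range (c.len true), ∑ v, ∑ v',
      c.U τ true x y j v v' * |alt f g j v - alt f g (j + 1) v'| := by
  rw [TF.H80.tele_eq hT c τ f g x y ha]
  have h0 := (hU G c τ true x y ha).2.2.1
  refine (Finset.abs_sum_le_sum_abs _ _).trans (Finset.sum_le_sum fun j hj => ?_)
  refine (Finset.abs_sum_le_sum_abs _ _).trans (Finset.sum_le_sum fun v _ => ?_)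
  refine (Finset.abs_sum_le_sum_abs _ _).trans (Finset.sum_le_sum fun v' _ => ?_)
  rw [abs_mul, abs_of_nonneg (h0 j v v' (Finset.mem_range.mp hj))]

/-- the halved closed walk kernels against `θ` -/
theorem kp_side (hPKS : PKSF_S.{u}) (c : Ctx G) (τ par : Bool) {j j' : ℕ} (w : G) (h1 : j ≤ j')
    (h2 : j' ≤ j + 6) (h3 : j' ≤ 6 * c.ha par) (θ1 : G → ℝ) (θ' : ℝ)
    (hM : ∀ M, c.TK 3 M → ∀ y, ∑ x, θ1 x * M y x ≤ θ') (v : G) :
    ∑ x, θ1 x * ∑ z, UM c.B x z * c.kp τ (c.ha par) j j' w z v ≤ 2 * θ' := by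
  obtain ⟨pkT, pkMul, pkMono, pkBas, -, tkT, tkMul, tkMono, tkB, -, -⟩ := hPKS G c
  have hb : c.PK 1 (c.hk τ par j j' w) :=
    pkBas _ (Or.inr (Or.inr ⟨τ, par, j, j', w, h1, h2, h3, Or.inl rfl⟩))
  have tk : c.TK 3 (UM c.B * c.hk τ par j j' w).transpose :=
    tkT _ _ (tkMono 2 3 _ (by norm_num) (tkMul 1 1 _ _ tkB hb).1)
  have h := hM _ tk v
  have e : ∑ x, θ1 x * ∑ z, UM c.B x z * c.kp τ (c.ha par) j j' w z v =
      2 * ∑ x, θ1 x * (UM c.B * c.hk τ par j j' w).transpose v x := by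
    rw [Finset.mul_sum]
    refine Finset.sum_congr rfl fun x _ => ?_
    rw [Matrix.transpose_apply, Matrix.mul_apply]
    have : ∑ z, UM c.B x z * c.kp τ (c.ha par) j j' w z v =
        2 * ∑ z, UM c.B x z * c.hk τ par j j' w z v := by
      rw [Finset.mul_sum]
      refine Finset.sum_congr rfl fun z _ => ?_
      unfold Ctx.hk
      ring
    rw [this]
    ring
  rw [e]
  linarith

theorem ethf (hPKS : PKSF_S.{u}) (hT : TELEF_S.{u}) (hKER : KERF_S.{u}) (hNUM : NUMF_S.{u})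
    (hUBD : CPLF_S.{u}) : ETHF_S.{u} := by
  intro G _ _ _ c τ U0 V0 β θ' θ hβ hθ' hUV hθ0 hθL hM
  obtain ⟨hX6, hXk, -, hk100, -⟩ := hNUM G c
  have hX0 : 0 < c.X := by linarith
  set n := c.len true with hn
  have hn' : n = 6 * c.k + 3 := by rw [hn]; simp [Ctx.len]
  have hmid : c.mid true = 3 * c.k + 3 := by simp [Ctx.mid]
  have hha : c.ha true = c.k + 1 := by simp [Ctx.ha]
  have hha' : c.ha false = c.k := by simp [Ctx.ha]
  obtain ⟨-, -, -, -, -, -, -, -, -, kc, kd, -⟩ := hKER G c τ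
  -- one letter words
  have hD1 : ∀ s ∈ Lt c.B c.C τ, ∑ z, |U0 z - V0 (z * s)| ≤ β := fun s hs =>
    hUV s (oddW_one (by norm_num) hs)
  have hDj : ∀ j, ∑ v, ∑ v', c.cc τ (j + 1) v v' * |alt U0 V0 j v - alt U0 V0 (j + 1) v'| ≤ β :=
    fun j => TF.H80.alt_WM τ U0 V0 β hβ hD1 j _ (kc (j + 1))
  set D : ℕ → G → G → ℝ := fun j v v' => |alt U0 V0 j v - alt U0 V0 (j + 1) v'| with hDdef
  have hD0 : ∀ j v v', 0 ≤ D j v v' := fun j v v' => abs_nonneg _
  have hcc0 : ∀ j v v', 0 ≤ c.cc τ j v v' := fun j v v' => (kd j).1.nn v v'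
  -- pointwise bound
  have hadm : ∀ x y z z', θ x y ≠ 0 → UM c.B x z ≠ 0 → UM c.B y z' ≠ 0 →
      c.adm τ true 100 z z' := by
    intro x y z z' h1 h2 h3
    have a1 := sub_Lt c.B c.C τ (c.hB.inv _ (UM_mem h2))
    have a2 := hθL x y h1
    have a3 := sub_Lt c.B c.C τ (UM_mem h3)
    have := oddW_three (N := 100) (by norm_num) a1 a2 a3
    have e : (x⁻¹ * z)⁻¹ * (x⁻¹ * y) * (y⁻¹ * z') = z⁻¹ * z' := by group
    rw [e] at this
    simpa [Ctx.adm] using this
  have hpt : ∀ x y, θ x y * |c.av U0 x - c.av V0 y| ≤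
      ∑ j ∈ Finset.range n, θ x y * ∑ z, ∑ z', UM c.B x z * UM c.B y z' *
        ∑ v, ∑ v', c.U τ true z z' j v v' * D j v v' := by
    intro x y
    rw [← Finset.mul_sum]
    by_cases hxy : θ x y = 0
    · rw [hxy]; simp
    refine mul_le_mul_of_nonneg_left ?_ (hθ0 x y)
    refine (TF.H80.av_abs c U0 V0 x y).trans ?_
    rw [sum_swap3 n (fun z z' => UM c.B x z * UM c.B y z')
      (fun j z z' => ∑ v, ∑ v', c.U τ true z z' j v v' * D j v v')]
    refine Finset.sum_le_sum fun z _ => Finset.sum_le_sum fun z' _ => ?_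
    by_cases h2 : UM c.B x z = 0
    · rw [h2]; simp
    by_cases h3 : UM c.B y z' = 0
    · rw [h3]; simp
    have ha := hadm x y z z' hxy h2 h3
    exact mul_le_mul_of_nonneg_left
      (tele_abs hT hUBD c τ U0 V0 z z' ha)
      (mul_nonneg (UM_nonneg _ _ _) (UM_nonneg _ _ _))
  -- bound for one step
  have hstep : ∀ j < n, ∑ x, ∑ y, θ x y * ∑ z, ∑ z', UM c.B x z * UM c.B y z' *
        ∑ v, ∑ v', c.U τ true z z' j v v' * D j v v' ≤ 2 * c.X * θ' * β := by
    intro j hj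
    have hfin : 5 / 4 * (2 * θ' * β) ≤ 2 * c.X * θ' * β := by
      have h0 : 0 ≤ θ' * β := mul_nonneg hθ' hβ
      nlinarith
    set E : G × G → ℝ := fun p => c.cc τ (j + 1) p.1 p.2 * D j p.1 p.2 with hE
    have hE0 : ∀ p, 0 ≤ E p := fun p => mul_nonneg (hcc0 _ _ _) (hD0 _ _ _)
    have hEs : ∑ p, E p ≤ β := by
      rw [Fintype.sum_prod_type]
      exact hDj j
    by_cases hj4 : j < c.mid true
    · -- use the rows
      rw [hmid] at hj4
      set K : G × G → G → ℝ := fun p z => c.kp τ (c.ha true) j (j + 1) (p.1⁻¹ * p.2) z p.1 with hK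
      have h1 : ∑ x, ∑ y, θ x y * ∑ z, ∑ z', UM c.B x z * UM c.B y z' *
          ∑ v, ∑ v', c.U τ true z z' j v v' * D j v v' ≤
          ∑ x, ∑ y, θ x y * ∑ z, ∑ z', UM c.B x z * UM c.B y z' *
            (5 / 4 * ∑ p, K p z * E p) := by
        refine Finset.sum_le_sum fun x _ => Finset.sum_le_sum fun y _ => ?_
        by_cases hxy : θ x y = 0
        · rw [hxy]; simp
        refine mul_le_mul_of_nonneg_left ?_ (hθ0 x y)
        refine Finset.sum_le_sum fun z _ => Finset.sum_le_sum fun z' _ => ?_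
        by_cases h2 : UM c.B x z = 0
        · rw [h2]; simp
        by_cases h3 : UM c.B y z' = 0
        · rw [h3]; simp
        have ha := hadm x y z z' hxy h2 h3
        refine mul_le_mul_of_nonneg_left ?_ (mul_nonneg (UM_nonneg _ _ _) (UM_nonneg _ _ _))
        rw [Fintype.sum_prod_type, Finset.mul_sum]
        refine Finset.sum_le_sum fun v _ => ?_
        rw [Finset.mul_sum]
        refine Finset.sum_le_sum fun v' _ => ?_
        have := (hUBD G c τ true z z' ha).2.2.2.2.1 j v v' (by rw [hmid]; exact hj4)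
        calc c.U τ true z z' j v v' * D j v v'
            ≤ (5 / 4 * c.kp τ (c.ha true) j (j + 1) (v⁻¹ * v') z v * c.cc τ (j + 1) v v') *
                D j v v' := mul_le_mul_of_nonneg_right this (hD0 _ _ _)
          _ = 5 / 4 * (K (v, v') z * E (v, v')) := by rw [hK, hE]; ring
      have h2 : ∑ x, ∑ y, θ x y * ∑ z, ∑ z', UM c.B x z * UM c.B y z' *
            (5 / 4 * ∑ p, K p z * E p) =
          5 / 4 * ∑ x, (∑ y, θ x y) * ∑ z, UM c.B x z * ∑ p, K p z * E p := by
        rw [Finset.mul_sum]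
        refine Finset.sum_congr rfl fun x _ => ?_
        have : ∀ y, ∑ z, ∑ z', UM c.B x z * UM c.B y z' *
            (5 / 4 * ∑ p, K p z * E p) =
            5 / 4 * ∑ z, UM c.B x z * ∑ p, K p z * E p := by
          intro y
          rw [Finset.mul_sum]
          refine Finset.sum_congr rfl fun z _ => ?_
          rw [pull (UM_row c.hB.ne y)]
          ring
        rw [Finset.sum_congr rfl fun y _ => by rw [this y]]
        rw [← Finset.sum_mul]
        ring
      have h3 : ∑ x, (∑ y, θ x y) * ∑ z, UM c.B x z * ∑ p, K p z * E p ≤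
          2 * θ' * ∑ p, E p := by
        refine row_side3 (fun x => ∑ y, θ x y) (UM c.B) K (2 * θ') E hE0 fun p => ?_
        exact kp_side hPKS c τ true (p.1⁻¹ * p.2) (by omega) (by omega) (by rw [hha]; omega)
          (fun x => ∑ y, θ x y) θ' (fun M hM' y => (hM M hM' y).1) p.1
      calc ∑ x, ∑ y, θ x y * ∑ z, ∑ z', UM c.B x z * UM c.B y z' *
          ∑ v, ∑ v', c.U τ true z z' j v v' * D j v v'
          ≤ 5 / 4 * ∑ x, (∑ y, θ x y) * ∑ z, UM c.B x z * ∑ p, K p z * E p :=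
            h1.trans (le_of_eq h2)
        _ ≤ 5 / 4 * (2 * θ' * ∑ p, E p) := mul_le_mul_of_nonneg_left h3 (by positivity)
        _ ≤ 5 / 4 * (2 * θ' * β) := by gcongr
        _ ≤ 2 * c.X * θ' * β := hfin
    · -- use the columns
      rw [hmid] at hj4
      set K : G × G → G → ℝ := fun p z' =>
        c.kp τ (c.ha false) (n - 1 - j) (n - j) (p.2⁻¹ * p.1) z' p.2 with hK
      have h1 : ∑ x, ∑ y, θ x y * ∑ z, ∑ z', UM c.B x z * UM c.B y z' *
          ∑ v, ∑ v', c.U τ true z z' j v v' * D j v v' ≤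
          ∑ x, ∑ y, θ x y * ∑ z, ∑ z', UM c.B x z * UM c.B y z' *
            (5 / 4 * ∑ p, K p z' * E p) := by
        refine Finset.sum_le_sum fun x _ => Finset.sum_le_sum fun y _ => ?_
        by_cases hxy : θ x y = 0
        · rw [hxy]; simp
        refine mul_le_mul_of_nonneg_left ?_ (hθ0 x y)
        refine Finset.sum_le_sum fun z _ => Finset.sum_le_sum fun z' _ => ?_
        by_cases h2 : UM c.B x z = 0
        · rw [h2]; simp
        by_cases h3 : UM c.B y z' = 0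
        · rw [h3]; simp
        have ha := hadm x y z z' hxy h2 h3
        refine mul_le_mul_of_nonneg_left ?_ (mul_nonneg (UM_nonneg _ _ _) (UM_nonneg _ _ _))
        rw [Fintype.sum_prod_type, Finset.mul_sum]
        refine Finset.sum_le_sum fun v _ => ?_
        rw [Finset.mul_sum]
        refine Finset.sum_le_sum fun v' _ => ?_
        have := (hUBD G c τ true z z' ha).2.2.2.2.2.1 j v v' (by rw [hmid]; omega) hj
        calc c.U τ true z z' j v v' * D j v v'
            ≤ (5 / 4 * c.kp τ c.k (c.len true - 1 - j) (c.len true - j) (v'⁻¹ * v) z' v' *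
                c.cc τ (j + 1) v v') * D j v v' := mul_le_mul_of_nonneg_right this (hD0 _ _ _)
          _ = 5 / 4 * (K (v, v') z' * E (v, v')) := by rw [hK, hE, hha', hn]; ring
      have h2 : ∑ x, ∑ y, θ x y * ∑ z, ∑ z', UM c.B x z * UM c.B y z' *
            (5 / 4 * ∑ p, K p z' * E p) =
          5 / 4 * ∑ y, (∑ x, θ x y) * ∑ z', UM c.B y z' * ∑ p, K p z' * E p := by
        rw [Finset.sum_comm, Finset.mul_sum]
        refine Finset.sum_congr rfl fun y _ => ?_
        have : ∀ x, ∑ z, ∑ z', UM c.B x z * UM c.B y z' *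
            (5 / 4 * ∑ p, K p z' * E p) =
            5 / 4 * ∑ z', UM c.B y z' * ∑ p, K p z' * E p := by
          intro x
          rw [Finset.sum_comm, Finset.mul_sum]
          refine Finset.sum_congr rfl fun z' _ => ?_
          rw [pull' (UM_row c.hB.ne x)]
          ring
        rw [Finset.sum_congr rfl fun x _ => by rw [this x]]
        rw [← Finset.sum_mul]
        ring
      have h3 : ∑ y, (∑ x, θ x y) * ∑ z', UM c.B y z' * ∑ p, K p z' * E p ≤
          2 * θ' * ∑ p, E p := by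
        refine row_side3 (fun y => ∑ x, θ x y) (UM c.B) K (2 * θ') E hE0 fun p => ?_
        exact kp_side hPKS c τ false (p.2⁻¹ * p.1) (by omega) (by omega) (by rw [hha']; omega)
          (fun y => ∑ x, θ x y) θ' (fun M hM' y => (hM M hM' y).2) p.2
      calc ∑ x, ∑ y, θ x y * ∑ z, ∑ z', UM c.B x z * UM c.B y z' *
          ∑ v, ∑ v', c.U τ true z z' j v v' * D j v v'
          ≤ 5 / 4 * ∑ y, (∑ x, θ x y) * ∑ z', UM c.B y z' * ∑ p, K p z' * E p :=
            h1.trans (le_of_eq h2)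
        _ ≤ 5 / 4 * (2 * θ' * ∑ p, E p) := mul_le_mul_of_nonneg_left h3 (by positivity)
        _ ≤ 5 / 4 * (2 * θ' * β) := by gcongr
        _ ≤ 2 * c.X * θ' * β := hfin
  -- total
  have htot : ∑ x, ∑ y, θ x y * |c.av U0 x - c.av V0 y| ≤ n * (2 * c.X * θ' * β) := by
    calc ∑ x, ∑ y, θ x y * |c.av U0 x - c.av V0 y|
        ≤ ∑ x, ∑ y, ∑ j ∈ Finset.range n, θ x y * ∑ z, ∑ z', UM c.B x z * UM c.B y z' *
          ∑ v, ∑ v', c.U τ true z z' j v v' * D j v v' :=
          Finset.sum_le_sum fun x _ => Finset.sum_le_sum fun y _ => hpt x y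
      _ = ∑ j ∈ Finset.range n, ∑ x, ∑ y, θ x y * ∑ z, ∑ z', UM c.B x z * UM c.B y z' *
          ∑ v, ∑ v', c.U τ true z z' j v v' * D j v v' := by
          rw [Finset.sum_comm]
          rw [Finset.sum_congr rfl fun x _ => Finset.sum_comm]
          rw [Finset.sum_comm]
          refine Finset.sum_congr rfl fun j _ => ?_
          rw [Finset.sum_comm]
      _ ≤ ∑ j ∈ Finset.range n, 2 * c.X * θ' * β :=
          Finset.sum_le_sum fun j hj => hstep j (Finset.mem_range.mp hj)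
      _ = n * (2 * c.X * θ' * β) := by rw [Finset.sum_const, Finset.card_range, nsmul_eq_mul]
  refine htot.trans ?_
  have hkX : (2 * n : ℝ) ≤ c.X ^ 2 := by
    have h4 : (100 : ℝ) ≤ c.k := by exact_mod_cast hk100
    have h1 : (1 : ℝ) ≤ 10 ^ 6 * c.k := by linarith
    have h2 : (10 ^ 6 * (c.k : ℝ)) ≤ (10 ^ 6 * (c.k : ℝ)) ^ 200 := le_self_pow₀ h1 (by norm_num)
    have h3 : (n : ℝ) = 6 * c.k + 3 := by rw [hn']; push_cast; ring
    rw [h3]
    nlinarith
  calc (n : ℝ) * (2 * c.X * θ' * β) = (2 * n) * (c.X * (θ' * β)) := by ring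
    _ ≤ c.X ^ 2 * (c.X * (θ' * β)) := mul_le_mul_of_nonneg_right hkX (by positivity)
    _ = c.X ^ 3 * θ' * β := by ring

end

end Pool.Agent.Lib.MP_688fd0_co.TF.H57
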