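import Pool.Agent.Lib.MP_688fd0_co.TE.H48.Unif
import Pool.Agent.Lib.MP_688fd0_co.TF.Iface5

/-!
# Theorem F: module REG5F (port of TE REG5)
-/

set_option autoImplicit false

namespace Pool.Agent.Lib.MP_688fd0_co.TF.H57

open Pool.Agent.Lib.MP_688fd0_co.TE Pool.Agent.Lib.MP_688fd0_co.TE.H48

universe u

section coord

variable {G : Type u} [Group G] [Fintype G] [DecidableEq G] {c : Ctx G} {N : ℕ} (g : Gad c N)

open Classical in
/-- the coordinate which gives the level of a vertex -/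
noncomputable def co (v : G) : Option (G ⊕ (G × G)) :=
  if ¬ g.W v then some (Sum.inl v)
  else if h : ∃ e, e ∈ g.res.E false ∧ (v = g.i false e ∨ v = g.o false e) then
    some (Sum.inr h.choose)
  else none

theorem lev_eq {m : ℕ} (lam : G ⊕ (G × G) → ZMod m) (v : G) :
    g.lev lam v = lvl (co g v) lam := by
  unfold Gad.lev co lvl
  split_ifs <;> rfl

theorem co_inl {v : G} (h : ¬ g.W v) : co g v = some (Sum.inl v) := by
  unfold co
  rw [if_pos h]

theorem co_inr {v : G} (h : g.W v) (h2 : ∃ e, e ∈ g.res.E false ∧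
    (v = g.i false e ∨ v = g.o false e)) : co g v = some (Sum.inr h2.choose) := by
  unfold co
  rw [if_neg (not_not.2 h), dif_pos h2]

theorem co_none {v : G} (h : g.W v) (h2 : ¬ ∃ e, e ∈ g.res.E false ∧
    (v = g.i false e ∨ v = g.o false e)) : co g v = none := by
  unfold co
  rw [if_neg (not_not.2 h), dif_neg h2]

theorem of_co_inl {v u : G} (h : co g v = some (Sum.inl u)) : v = u := by
  by_cases h1 : g.W v
  · by_cases h2 : ∃ e, e ∈ g.res.E false ∧ (v = g.i false e ∨ v = g.o false e)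
    · rw [co_inr g h1 h2] at h
      exact absurd (Option.some.inj h) (by simp)
    · rw [co_none g h1 h2] at h
      exact absurd h (by simp)
  · rw [co_inl g h1] at h
    exact Sum.inl.inj (Option.some.inj h)

theorem of_co_inr {v : G} {e : G × G} (h : co g v = some (Sum.inr e)) :
    v = g.i false e ∨ v = g.o false e := by
  by_cases h1 : g.W v
  · by_cases h2 : ∃ e, e ∈ g.res.E false ∧ (v = g.i false e ∨ v = g.o false e)
    · rw [co_inr g h1 h2] at h
      have h3 := h2.choose_spec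
      rw [Sum.inr.inj (Option.some.inj h)] at h3
      exact h3.2
    · rw [co_none g h1 h2] at h
      exact absurd h (by simp)
  · rw [co_inl g h1] at h
    exact absurd (Option.some.inj h) (by simp)

theorem of_co_none {v : G} (h : co g v = none) :
    g.W v ∧ ∀ e ∈ g.res.E false, v ≠ g.i false e ∧ v ≠ g.o false e := by
  by_cases h1 : g.W v
  · refine ⟨h1, fun e he => ⟨fun h3 => ?_, fun h3 => ?_⟩⟩
    · rw [co_inr g h1 ⟨e, he, Or.inl h3⟩] at h
      exact absurd h (by simp)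
    · rw [co_inr g h1 ⟨e, he, Or.inr h3⟩] at h
      exact absurd h (by simp)
  · rw [co_inl g h1] at h
    exact absurd h (by simp)

omit [Group G] [DecidableEq G] in
theorem sum_ind_eq (u : G) : ∑ v, ind (v = u) = 1 := by
  rw [Finset.sum_eq_single u]
  · exact ind_of rfl
  · intro v _ hv
    exact ind_not hv
  · intro h
    exact absurd (Finset.mem_univ u) h

theorem co_fib (κ : G ⊕ (G × G)) : ∑ v, ind (co g v = some κ) ≤ 2 := by
  rcases κ with u | e
  · calc ∑ v, ind (co g v = some (Sum.inl u)) ≤ ∑ v, ind (v = u) :=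
          Finset.sum_le_sum fun v _ => ind_mono (of_co_inl g)
      _ = 1 := sum_ind_eq u
      _ ≤ 2 := by norm_num
  · calc ∑ v, ind (co g v = some (Sum.inr e))
        ≤ ∑ v, (ind (v = g.i false e) + ind (v = g.o false e)) := by
          refine Finset.sum_le_sum fun v _ => ?_
          by_cases h : co g v = some (Sum.inr e)
          · rcases of_co_inr g h with h1 | h1
            · have := ind_le_one (co g v = some (Sum.inr e))
              have h2 := ind_nonneg (v = g.o false e)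
              rw [ind_of h1]
              linarith
            · have := ind_le_one (co g v = some (Sum.inr e))
              have h2 := ind_nonneg (v = g.i false e)
              rw [ind_of h1]
              linarith
          · rw [ind_not h]
            exact add_nonneg (ind_nonneg _) (ind_nonneg _)
      _ = 2 := by
          rw [Finset.sum_add_distrib, sum_ind_eq, sum_ind_eq]
          norm_num

/-- members of `W` of kind 1 -/
def W1 (w : G) : Prop := ∃ e ∈ g.res.E true, w ∈ g.Vs true e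

theorem i_mem {τ : Bool} {e : G × G} (he : e ∈ g.res.E τ) : g.i τ e ∈ g.Vs τ e := by
  have h := g.ok τ e he
  rw [← h.av]
  exact List.mem_of_head? h.ah

theorem o_mem {τ : Bool} {e : G × G} (he : e ∈ g.res.E τ) : g.o τ e ∈ g.Vs τ e := by
  have h := g.ok τ e he
  rw [← h.av]
  exact List.mem_of_getLast? h.al

theorem W1_of_CC {y : G} (h : g.CC y) (h1 : co g y = none) : W1 g y := by
  obtain ⟨h2, h3⟩ := of_co_none g h1
  rcases h with h | ⟨τ, e, he, h⟩
  · exact absurd h2 h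
  · cases τ with
    | false => exact absurd h (h3 e he).1
    | true => exact ⟨e, he, h ▸ i_mem g he⟩

theorem W1_of_RR {y : G} (h : g.RR y) (h1 : co g y = none) : W1 g y := by
  obtain ⟨h2, h3⟩ := of_co_none g h1
  rcases h with h | ⟨τ, e, he, h⟩
  · exact absurd h2 h
  · cases τ with
    | false => exact absurd h (h3 e he).2
    | true => exact ⟨e, he, h ▸ o_mem g he⟩

variable {m : ℕ} [NeZero m]

omit [NeZero m] in
theorem pair_card (hm : 2 ≤ m) (a : ZMod m) : ({a + 1, a + 2} : Finset (ZMod m)).card = 2 := by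
  have : Fact (1 < m) := ⟨by omega⟩
  apply Finset.card_pair
  intro h
  have h1 : (1 : ZMod m) = 2 := add_left_cancel h
  have h2 : (1 : ZMod m) + 0 = 1 + 1 := by rw [add_zero, one_add_one_eq_two]; exact h1
  exact zero_ne_one (add_left_cancel h2)

omit [NeZero m] in
theorem pair_card' (hm : 2 ≤ m) (a : ZMod m) : ({a - 1, a - 2} : Finset (ZMod m)).card = 2 := by
  have : Fact (1 < m) := ⟨by omega⟩
  apply Finset.card_pair
  intro h
  have h1 : (1 : ZMod m) = 2 := sub_right_injective h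
  have h2 : (1 : ZMod m) + 0 = 1 + 1 := by rw [add_zero, one_add_one_eq_two]; exact h1
  exact zero_ne_one (add_left_cancel h2)

omit [NeZero m] in
theorem mem_pair' {a b : ZMod m} : a ∈ ({b - 1, b - 2} : Finset (ZMod m)) ↔
    (b = a + 1 ∨ b = a + 2) := by
  simp only [Finset.mem_insert, Finset.mem_singleton]
  constructor
  · rintro (h | h)
    · left; rw [h]; ring
    · right; rw [h]; ring
  · rintro (h | h)
    · left; rw [h]; ring
    · right; rw [h]; ring

/-- the mean of the indicator of a `B`-arc -/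
theorem ex_B (hU : UPD_S.{u, 0}) (hm : 2 ≤ m) {x y : G} (hxy : x ≠ y)
    (hW : ¬ (g.W x ∧ g.W y)) :
    Ex (unifW (G ⊕ (G × G) → ZMod m)) (fun ω => ind (lvl (co g y) ω = lvl (co g x) ω + 1 ∨
      lvl (co g y) ω = lvl (co g x) ω + 2)) = 2 / m := by
  by_cases hx : g.W x
  · have hy : ¬ g.W y := fun h => hW ⟨hx, h⟩
    have h1 := co_inl g hy
    have h2 : co g x ≠ some (Sum.inl y) := fun h => hxy (of_co_inl g h)
    have h3 := ex_shift (m := m) hU (Sum.inl y)
      (fun ω => ({lvl (co g x) ω + 1, lvl (co g x) ω + 2} : Finset (ZMod m)))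
      (fun ω a => by simp only [lvl_update h2]) 2 (fun ω => pair_card hm _)
    rw [h1]
    simp only [Finset.mem_insert, Finset.mem_singleton] at h3
    exact h3
  · have h1 := co_inl g hx
    have h2 : co g y ≠ some (Sum.inl x) := fun h => hxy (of_co_inl g h).symm
    have h3 := ex_shift (m := m) hU (Sum.inl x)
      (fun ω => ({lvl (co g y) ω - 1, lvl (co g y) ω - 2} : Finset (ZMod m)))
      (fun ω a => by simp only [lvl_update h2]) 2 (fun ω => pair_card' hm _)
    rw [h1]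
    simp only [mem_pair'] at h3
    exact h3

/-- the mean of the indicator of a `C`-arc -/
theorem ex_C (hU : UPD_S.{u, 0}) {x y : G} (hxy : x ≠ y) (hx : ¬ g.W x) (hy : ¬ g.W y) :
    Ex (unifW (G ⊕ (G × G) → ZMod m)) (fun ω => ind (lvl (co g x) ω = 0 ∧
      lvl (co g y) ω = 1)) = 1 / (m : ℝ) ^ 2 := by
  rw [co_inl g hx, co_inl g hy]
  rw [unifW_eq, hU.1 (G ⊕ (G × G)) (fun _ => ZMod m) (fun _ => unifW (ZMod m))
    (fun _ => isPr_unif) _ (Sum.inl x), ← unifW_eq]
  have h : ∀ ω : G ⊕ (G × G) → ZMod m, Ex (unifW (ZMod m)) (fun a =>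
      ind (lvl (some (Sum.inl x)) (Function.update ω (Sum.inl x) a) = 0 ∧
        lvl (some (Sum.inl y)) (Function.update ω (Sum.inl x) a) = 1)) =
      1 / m * ind (ω (Sum.inl y) ∈ ({1} : Finset (ZMod m))) := by
    intro ω
    have h1 : ∀ a, ind (lvl (some (Sum.inl x)) (Function.update ω (Sum.inl x) a) = 0 ∧
        lvl (some (Sum.inl y)) (Function.update ω (Sum.inl x) a) = 1) =
        ind (ω (Sum.inl y) = 1) * ind (a = 0) := by
      intro a
      have h2 : (Sum.inl y : G ⊕ (G × G)) ≠ Sum.inl x := fun h => hxy (Sum.inl.inj h).symm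
      have h3 : lvl (some (Sum.inl x)) (Function.update ω (Sum.inl x) a) = a := by
        change Function.update ω (Sum.inl x) a (Sum.inl x) = a
        rw [Function.update_self]
      have h4 : lvl (some (Sum.inl y)) (Function.update ω (Sum.inl x) a) = ω (Sum.inl y) := by
        change Function.update ω (Sum.inl x) a (Sum.inl y) = ω (Sum.inl y)
        rw [Function.update_of_ne h2]
      rw [h3, h4, ind_and, mul_comm]
    simp only [h1]
    rw [ex_mul]
    have h5 : Ex (unifW (ZMod m)) (fun a => ind (a = 0)) = 1 / m := by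
      unfold Ex unifW
      rw [Finset.sum_eq_single 0]
      · change 1 / ((Fintype.card (ZMod m) : ℕ) : ℝ) * ind ((0 : ZMod m) = 0) = 1 / m
        rw [ind_of rfl, mul_one, ZMod.card]
      · intro a _ ha
        change 1 / ((Fintype.card (ZMod m) : ℕ) : ℝ) * ind (a = 0) = 0
        rw [ind_not ha, mul_zero]
      · intro h
        exact absurd (Finset.mem_univ _) h
    rw [h5]
    simp only [Finset.mem_singleton]
    ring
  simp only [h]
  rw [ex_mul, ex_shift hU (Sum.inl y) (fun _ => {1}) (fun _ _ => rfl) 1 (fun _ => rfl)]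
  push_cast
  ring

end coord

/-! ### Numerical facts -/

theorem root_facts {X b : ℝ} (hX : 1 ≤ X) (hb : X ^ 200000 ≤ b) :
    0 < b ^ (1 / 8 : ℝ) ∧ (b ^ (1 / 8 : ℝ)) ^ 8 = b ∧ X ^ 25000 ≤ b ^ (1 / 8 : ℝ) := by
  have hX0 : (0 : ℝ) < X := by linarith
  have hb0 : 0 < b := lt_of_lt_of_le (pow_pos hX0 _) hb
  have h1 : 0 < b ^ (1 / 8 : ℝ) := Real.rpow_pos_of_pos hb0 _
  have h2 : (b ^ (1 / 8 : ℝ)) ^ 8 = b := by
    rw [← Real.rpow_natCast, ← Real.rpow_mul hb0.le]
    norm_num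
  refine ⟨h1, h2, ?_⟩
  rw [← pow_le_pow_iff_left₀ (pow_nonneg hX0.le _) h1.le (n := 8) (by norm_num), h2, ← pow_mul]
  exact hb

theorem expo2 {X t a0 cc : ℝ} (hX : 10 ^ 6 ≤ X) (ht0 : 0 < t)
    (htX : X ^ 25000 ≤ t) (ha0 : 0 < a0) (ha : a0 ≤ 3 * X ^ 1000) (hcc : 0 < cc) :
    X ≤ (cc / t) ^ 2 / (16 * (a0 * cc) ^ 2 * (2 / t ^ 4)) := by
  have hX0 : (0 : ℝ) < X := lt_of_lt_of_le (by norm_num) hX
  have hX1 : (1 : ℝ) ≤ X := le_trans (by norm_num) hX
  have e : (cc / t) ^ 2 / (16 * (a0 * cc) ^ 2 * (2 / t ^ 4)) = t ^ 2 / (32 * a0 ^ 2) := by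
    field_simp
    ring
  rw [e, le_div_iff₀ (by positivity)]
  have h1 : a0 ^ 2 ≤ (3 * X ^ 1000) ^ 2 := pow_le_pow_left₀ ha0.le ha 2
  have h2 : X * (32 * a0 ^ 2) ≤ 288 * X ^ 2001 := by
    calc X * (32 * a0 ^ 2) ≤ X * (32 * (3 * X ^ 1000) ^ 2) := by gcongr
      _ = 288 * X ^ 2001 := by ring
  have h3 : 288 * X ^ 2001 ≤ X ^ 2002 := by
    rw [show (2002 : ℕ) = 2001 + 1 from rfl, pow_succ X 2001, mul_comm]
    exact mul_le_mul_of_nonneg_left (by linarith) (by positivity)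
  have h4 : X ^ 2002 ≤ X ^ 50000 := pow_le_pow_right₀ hX1 (by norm_num)
  have h5 : X ^ 50000 ≤ t ^ 2 := by
    have := pow_le_pow_left₀ (pow_nonneg hX0.le 25000) htX 2
    rw [← pow_mul] at this
    exact this
  linarith

theorem root_half {b : ℝ} (hb : 0 ≤ b) : b ^ (1 / 2 : ℝ) = (b ^ (1 / 8 : ℝ)) ^ 4 := by
  rw [← Real.rpow_natCast, ← Real.rpow_mul hb]
  norm_num

theorem expo {X b t a0 cc : ℝ} (hX : 10 ^ 6 ≤ X) (ht0 : 0 < t) (ht : t ^ 8 = b)
    (htX : X ^ 25000 ≤ t) (ha0 : 0 < a0) (ha : a0 ≤ 2 * X ^ 1001) (hcc : 0 < cc) :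
    X ≤ (cc / t) ^ 2 / (16 * (a0 * cc) ^ 2 * (1 / b)) := by
  have hX0 : (0 : ℝ) < X := lt_of_lt_of_le (by norm_num) hX
  have hX1 : (1 : ℝ) ≤ X := le_trans (by norm_num) hX
  have e : (cc / t) ^ 2 / (16 * (a0 * cc) ^ 2 * (1 / b)) = t ^ 6 / (16 * a0 ^ 2) := by
    rw [← ht]
    field_simp
  rw [e, le_div_iff₀ (by positivity)]
  have h1 : a0 ^ 2 ≤ (2 * X ^ 1001) ^ 2 := by
    exact pow_le_pow_left₀ ha0.le ha 2
  have h2 : X * (16 * a0 ^ 2) ≤ 64 * X ^ 2003 := by
    calc X * (16 * a0 ^ 2) ≤ X * (16 * (2 * X ^ 1001) ^ 2) := by gcongr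
      _ = 64 * X ^ 2003 := by ring
  have h3 : 64 * X ^ 2003 ≤ X ^ 2004 := by
    rw [show (2004 : ℕ) = 2003 + 1 from rfl, pow_succ X 2003, mul_comm]
    exact mul_le_mul_of_nonneg_left (by linarith) (by positivity)
  have h4 : X ^ 2004 ≤ X ^ 150000 := pow_le_pow_right₀ hX1 (by norm_num)
  have h5 : X ^ 150000 ≤ t ^ 6 := by
    have := pow_le_pow_left₀ (pow_nonneg hX0.le 25000) htX 6
    rw [← pow_mul] at this
    exact this
  linarith

theorem exp_le {X y : ℝ} (h : X ≤ y) : Real.exp (-y) ≤ Real.exp (-X) :=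
  Real.exp_le_exp.2 (by linarith)

section main

variable {G : Type u} [Group G] [Fintype G] [DecidableEq G] {c : Ctx G} {N : ℕ} (g : Gad c N)
  {m : ℕ} [NeZero m]

theorem len_true : c.len true = 6 * c.k + 3 := by
  unfold Ctx.len
  rw [if_pos rfl]

/-- the closed walk kernels are small -/
theorem kp_le_two (hK : KPF_S.{u}) (τ par : Bool) {j j' : ℕ} (w : G) (h1 : j ≤ j')
    (h2 : j' ≤ j + 6) (h3 : j' ≤ 6 * c.ha par) (x v : G) : c.kp τ (c.ha par) j j' w x v ≤ 2 := by
  obtain ⟨k1, -, k3, -⟩ := hK G c τ par j j' w h1 h2 h3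
  exact (Finset.single_le_sum (f := fun v => c.kp τ (c.ha par) j j' w x v)
    (fun v _ => k1 x v) (Finset.mem_univ v)).trans (k3 x)

theorem mid_true : c.mid true = 3 * c.k + 3 := by
  unfold Ctx.mid
  rw [if_pos rfl]

theorem ha_true : c.ha true = c.k + 1 := by
  unfold Ctx.ha
  rw [if_pos rfl]

theorem ha_false : c.ha false = c.k := by
  unfold Ctx.ha
  simp

/-- concentration for the inner steps -/
theorem mid (hM : MCD_S.{u, 0}) (hK : KPF_S.{u}) (hUB : CPLF_S.{u}) (hN : NUMF_S.{u}) (τ : Bool)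
    {j : ℕ} (hj1 : 1 ≤ j) (hj2 : j + 1 < c.len true) (v v' : G) (R : Matrix G G ℝ) (hR : DS R)
    (hRa : ∀ x y, R x y ≠ 0 → c.adm τ true 100 x y) {κ0 : ℝ} (hκ0 : 0 < κ0)
    (hκ1 : κ0 ≤ c.X ^ 1000) (hcc : 0 < c.cc τ (j + 1) v v')
    (Q : G → G → ZMod m → ZMod m → Prop) (F : (G ⊕ (G × G) → ZMod m) → ℝ)
    (hF : ∀ ω, F ω = ∑ x, ∑ y, κ0 * R x y * c.U τ true x y j v v' *
      ind (Q x y (lvl (co g x) ω) (lvl (co g y) ω))) :
    Pr (unifW (G ⊕ (G × G) → ZMod m)) (fun ω =>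
      c.cc τ (j + 1) v v' / c.b ^ (1 / 8 : ℝ) ≤
        |F ω - Ex (unifW (G ⊕ (G × G) → ZMod m)) F|) ≤ 2 * Real.exp (-c.X) := by
  obtain ⟨n1, -, -, n6, -, -, n8, n9, -⟩ := hN G c
  have hX0 : (0 : ℝ) < c.X := lt_of_lt_of_le (by norm_num) n1
  have hX1 : (1 : ℝ) ≤ c.X := le_trans (by norm_num) n1
  obtain ⟨t1, t2, t3⟩ := root_facts hX1 n9
  have t4 := root_half n8.le
  set t := c.b ^ (1 / 8 : ℝ)
  rw [len_true] at hj2
  have hjl : j < c.len true := by rw [len_true]; omega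
  have hU0 : ∀ x y, 0 ≤ κ0 * R x y * c.U τ true x y j v v' := by
    intro x y
    by_cases h : R x y = 0
    · rw [h, mul_zero, zero_mul]
    · exact mul_nonneg (mul_nonneg hκ0.le (hR.nn x y))
        ((hUB G c τ true x y (hRa x y h)).2.2.1 j v v' hjl)
  set cc := c.cc τ (j + 1) v v' with hccdef
  have hA : 0 < 5 / 2 * κ0 * cc := by positivity
  have hexp : c.X ≤ (cc / t) ^ 2 / (16 * (5 / 2 * κ0 * cc) ^ 2 * (2 / t ^ 4)) := by
    refine expo2 n1 t1 t3 (by positivity) ?_ hcc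
    nlinarith [pow_pos hX0 1000]
  by_cases hj : j < c.mid true
  · rw [mid_true] at hj
    obtain ⟨k1, -, -, k4, -, -, k7⟩ := hK G c τ true j (j + 1) (v⁻¹ * v') (by omega) (by omega)
      (by rw [ha_true]; omega)
    have k7' := k7 hj1 (by rw [ha_true]; omega)
    rw [t4] at k7'
    have h := conc2 hM (co g) (co_fib g) R (fun x y => κ0 * R x y * c.U τ true x y j v v')
      (fun x => c.kp τ (c.ha true) j (j + 1) (v⁻¹ * v') x v / 2) (A := 5 / 2 * κ0 * cc)
      (β := 2 / t ^ 4) (d := cc / t)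
      hA (by positivity) (by positivity) hR.nn
      (fun x => (hR.row x).le) (fun x => (hR.col x).le)
      (fun x => div_nonneg (k1 x v) (by norm_num))
      (fun x => by
        have := k7' x v
        calc c.kp τ (c.ha true) j (j + 1) (v⁻¹ * v') x v / 2 ≤ (4 / t ^ 4) / 2 :=
              div_le_div_of_nonneg_right this (by norm_num)
          _ = 2 / t ^ 4 := by ring)
      (by
        rw [← Finset.sum_div, div_le_one (by norm_num)]
        exact k4 v) hU0 (Or.inl (by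
        intro x y
        by_cases h : R x y = 0
        · simp only [h, mul_zero, zero_mul, le_refl]
        · have h1 := (hUB G c τ true x y (hRa x y h)).2.2.2.2.1 j v v' (by rw [mid_true]; omega)
          calc κ0 * R x y * c.U τ true x y j v v'
              ≤ κ0 * R x y * (5 / 4 * c.kp τ (c.ha true) j (j + 1) (v⁻¹ * v') x v * cc) :=
                mul_le_mul_of_nonneg_left h1 (mul_nonneg hκ0.le (hR.nn x y))
            _ = 5 / 2 * κ0 * cc * R x y * (c.kp τ (c.ha true) j (j + 1) (v⁻¹ * v') x v / 2) := by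
                ring)) Q F hF
    exact h.trans (mul_le_mul_of_nonneg_left (exp_le hexp) (by norm_num))
  · rw [mid_true] at hj
    obtain ⟨k1, -, -, k4, -, -, k7⟩ := hK G c τ false (c.len true - 1 - j) (c.len true - j)
      (v'⁻¹ * v) (by rw [len_true]; omega) (by rw [len_true]; omega)
      (by rw [ha_false, len_true]; omega)
    have k7' := k7 (by rw [len_true]; omega) (by rw [ha_false, len_true]; omega)
    rw [t4] at k7'
    rw [ha_false] at k1 k4 k7'
    have h := conc2 hM (co g) (co_fib g) R (fun x y => κ0 * R x y * c.U τ true x y j v v')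
      (fun y => c.kp τ c.k (c.len true - 1 - j) (c.len true - j) (v'⁻¹ * v) y v' / 2)
      (A := 5 / 2 * κ0 * cc)
      (β := 2 / t ^ 4) (d := cc / t)
      hA (by positivity) (by positivity) hR.nn
      (fun x => (hR.row x).le) (fun x => (hR.col x).le)
      (fun x => div_nonneg (k1 x v') (by norm_num))
      (fun x => by
        have := k7' x v'
        calc c.kp τ c.k (c.len true - 1 - j) (c.len true - j) (v'⁻¹ * v) x v' / 2
            ≤ (4 / t ^ 4) / 2 := div_le_div_of_nonneg_right this (by norm_num)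
          _ = 2 / t ^ 4 := by ring)
      (by
        rw [← Finset.sum_div, div_le_one (by norm_num)]
        exact k4 v') hU0 (Or.inr (by
        intro x y
        by_cases h : R x y = 0
        · simp only [h, mul_zero, zero_mul, le_refl]
        · have h1 := (hUB G c τ true x y (hRa x y h)).2.2.2.2.2.1 j v v'
            (by rw [mid_true]; omega) hjl
          calc κ0 * R x y * c.U τ true x y j v v'
              ≤ κ0 * R x y * (5 / 4 * c.kp τ c.k (c.len true - 1 - j) (c.len true - j)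
                  (v'⁻¹ * v) y v' * cc) :=
                mul_le_mul_of_nonneg_left h1 (mul_nonneg hκ0.le (hR.nn x y))
            _ = 5 / 2 * κ0 * cc * R x y *
                (c.kp τ c.k (c.len true - 1 - j) (c.len true - j) (v'⁻¹ * v) y v' / 2) := by
                ring)) Q F hF
    exact h.trans (mul_le_mul_of_nonneg_left (exp_le hexp) (by norm_num))

theorem adm_of_B {τ : Bool} {x y : G} (h : x⁻¹ * y ∈ c.B) : c.adm τ true 100 x y := by
  unfold Ctx.adm
  rw [if_pos rfl]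
  refine ⟨1, odd_one, by norm_num, [x⁻¹ * y], rfl, ?_, by simp⟩
  intro s hs
  rw [List.mem_singleton.1 hs]
  unfold Lt
  cases τ
  · simpa using h
  · simpa using Or.inl h

theorem adm_of_C {x y : G} (h : x⁻¹ * y ∈ c.C) : c.adm true true 100 x y := by
  unfold Ctx.adm
  rw [if_pos rfl]
  refine ⟨1, odd_one, by norm_num, [x⁻¹ * y], rfl, ?_, by simp⟩
  intro s hs
  rw [List.mem_singleton.1 hs]
  unfold Lt
  simpa using Or.inr h

theorem UM_ne {S : Finset G} {x y : G} (h : UM S x y ≠ 0) : x⁻¹ * y ∈ S := by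
  by_contra h1
  apply h
  unfold UM
  rw [ind_not h1, zero_div]

theorem UM_nn (S : Finset G) (x y : G) : 0 ≤ UM S x y :=
  div_nonneg (ind_nonneg _) (Nat.cast_nonneg _)

theorem cc_false (p : ℕ) : c.cc false p = UM c.B := by
  unfold Ctx.cc cF WM
  simp

theorem cc_le (p : ℕ) (v v' : G) : c.cc true p v v' ≤ UM c.B v v' + UM c.C v v' := by
  have h1 : 0 ≤ UM c.B v v' := UM_nn _ _ _
  have h2 : 0 ≤ UM c.C v v' := UM_nn _ _ _
  unfold Ctx.cc cF WM
  simp only [if_true]
  split_ifs with h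
  · simp only [Matrix.smul_apply, Matrix.add_apply, smul_eq_mul]
    linarith
  · linarith

theorem cc_nn (τ : Bool) (p : ℕ) (v v' : G) : 0 ≤ c.cc τ p v v' := by
  have h1 : 0 ≤ UM c.B v v' := UM_nn _ _ _
  have h2 : 0 ≤ UM c.C v v' := UM_nn _ _ _
  unfold Ctx.cc cF WM
  split_ifs
  · simp only [Matrix.smul_apply, Matrix.add_apply, smul_eq_mul]
    linarith
  · exact h1
  · exact h1

theorem cx_of_cc {τ par : Bool} {x y v v' : G} {p : ℕ} (h : c.cc τ p v v' = 0) :
    c.cx τ par x y p v v' = 0 := by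
  by_cases hj : p = c.mid par
  · have e : c.cx τ par x y p = fun a b => c.cc τ p a b * c.rh τ par x y b := if_pos hj
    rw [e]
    change c.cc τ p v v' * _ = 0
    rw [h, zero_mul]
  · have e : c.cx τ par x y p = c.cc τ p := if_neg hj
    rw [e]
    exact h

theorem U_of_cc {τ par : Bool} {x y v v' : G} {j : ℕ} (h : c.cc τ (j + 1) v v' = 0) :
    c.U τ par x y j v v' = 0 := by
  unfold Ctx.U
  rw [cx_of_cc h, mul_zero, zero_mul, zero_div]

omit [Fintype G] in
theorem ind_congr {p q : Prop} (h : p ↔ q) : ind p = ind q := by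
  rw [propext h]

theorem aB_eq (lv : G → ZMod m) (x y : G) : g.aB lv x y = (m : ℝ) / 2 * UM c.B x y *
    ind ((g.RR x ∧ g.CC y ∧ ¬ (g.W x ∧ g.W y)) ∧ (lv y = lv x + 1 ∨ lv y = lv x + 2)) := by
  unfold Gad.aB UM Ctx.b
  simp only [ind_and]
  by_cases hb : (c.B.card : ℝ) = 0
  · rw [hb]
    simp
  · field_simp

theorem aC_eq (lv : G → ZMod m) (x y : G) : g.aC lv x y = 1 / c.X ^ 100 * UM c.C x y *
    ind ((¬ g.W x ∧ ¬ g.W y) ∧ (lv x = 0 ∧ lv y = 1)) := by
  unfold Gad.aC UM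
  simp only [ind_and]
  by_cases hb : (c.C.card : ℝ) = 0
  · rw [hb]
    simp
  · ring

/-- expectation of a two body sum -/
theorem ex_two {Ω : Type*} [Fintype Ω] (μ : Ω → ℝ) (w : G → G → ℝ) (f : G → G → Ω → ℝ) :
    Ex μ (fun ω => ∑ x, ∑ y, w x y * f x y ω) = ∑ x, ∑ y, w x y * Ex μ (f x y) := by
  rw [ex_sum μ Finset.univ (fun x ω => ∑ y, w x y * f x y ω)]
  refine Finset.sum_congr rfl fun x _ => ?_
  rw [ex_sum μ Finset.univ (fun y ω => w x y * f x y ω)]
  exact Finset.sum_congr rfl fun y _ => ex_mul _ _ _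

/-- expectation of the indicator of a conjunction with a constant -/
theorem ex_ind_and {Ω : Type*} [Fintype Ω] (μ : Ω → ℝ) (p : Prop) (q : Ω → Prop) :
    Ex μ (fun ω => ind (p ∧ q ω)) = ind p * Ex μ (fun ω => ind (q ω)) := by
  have h : (fun ω => ind (p ∧ q ω)) = fun ω => ind p * ind (q ω) := by
    funext ω
    exact ind_and _ _
  rw [h, ex_mul]

/-- the first regularity event -/
def evB (j : ℕ) (v v' : G) (ω : G ⊕ (G × G) → ZMod m) : Prop :=
  |∑ x, ∑ y, (g.aB (g.lev ω) x y - g.mB x y) * c.U false true x y j v v'| ≤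
    1 / c.X ^ 90 * UM c.B v v'

/-- the second regularity event -/
def evC (j : ℕ) (v v' : G) (ω : G ⊕ (G × G) → ZMod m) : Prop :=
  |∑ x, ∑ y, (g.aC (g.lev ω) x y - g.mC m x y) * c.U true true x y j v v'| ≤
    1 / c.X ^ 90 * UM c.B v v' + 1 / c.b ^ (1 / 8 : ℝ) * UM c.C v v'

theorem pr_false {Ω : Type*} [Fintype Ω] {μ : Ω → ℝ} {E : Ω → Prop} (h : ∀ ω, ¬ E ω) {p : ℝ}
    (hp : 0 ≤ p) : Pr μ E ≤ p := by
  have : Pr μ E = 0 := by
    unfold Pr
    refine Finset.sum_eq_zero fun ω _ => ?_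
    rw [ind_not (h ω), mul_zero]
  rw [this]
  exact hp

theorem pr_mono {Ω : Type*} [Fintype Ω] {μ : Ω → ℝ} (hμ : IsPr μ) {E F : Ω → Prop}
    (h : ∀ ω, E ω → F ω) : Pr μ E ≤ Pr μ F :=
  Finset.sum_le_sum fun ω _ => mul_le_mul_of_nonneg_left (ind_mono (h ω)) (hμ.nn ω)

theorem inv_t_le {X t : ℝ} {n : ℕ} (hX : 1 ≤ X) (h : X ^ 25000 ≤ t) (hn : n ≤ 25000) :
    1 / t ≤ 1 / X ^ n := by
  have hX0 : (0 : ℝ) < X := by linarith
  exact one_div_le_one_div_of_le (pow_pos hX0 _) ((pow_le_pow_right₀ hX hn).trans h)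

theorem evB_mid (hM : MCD_S.{u, 0}) (hU : UPD_S.{u, 0}) (hK : KPF_S.{u}) (hUB : CPLF_S.{u})
    (hN : NUMF_S.{u}) (hMA : MAT_S.{u}) (hm : c.mOK m) {j : ℕ} (hj1 : 1 ≤ j)
    (hj2 : j + 1 < c.len true) (v v' : G) :
    Pr (unifW (G ⊕ (G × G) → ZMod m)) (fun ω => ¬ evB g j v v' ω) ≤ 2 * Real.exp (-c.X) := by
  obtain ⟨n1, -, -, n6, -, -, n8, n9, -⟩ := hN G c
  have hX0 : (0 : ℝ) < c.X := lt_of_lt_of_le (by norm_num) n1
  have hX1 : (1 : ℝ) ≤ c.X := le_trans (by norm_num) n1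
  obtain ⟨t1, t2, t3⟩ := root_facts hX1 n9
  obtain ⟨m1, m2⟩ := hm
  have hm1 : (2 : ℝ) ≤ m := by
    refine le_trans ?_ m1
    calc (2 : ℝ) ≤ c.X ^ 1 := by rw [pow_one]; exact le_trans (by norm_num) n1
      _ ≤ c.X ^ 1000 := pow_le_pow_right₀ hX1 (by norm_num)
  have hm2 : 2 ≤ m := by exact_mod_cast hm1
  have hm0 : (0 : ℝ) < m := by linarith
  rcases (UM_nn c.B v v').eq_or_lt with h0 | h0
  · refine pr_false (fun ω h => h ?_) (by positivity)
    unfold evB
    rw [Finset.sum_eq_zero, abs_zero, ← h0, mul_zero]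
    intro x _
    refine Finset.sum_eq_zero fun y _ => ?_
    rw [U_of_cc (by rw [cc_false, ← h0]), mul_zero]
  · set F : (G ⊕ (G × G) → ZMod m) → ℝ := fun ω => ∑ x, ∑ y, (m : ℝ) / 2 * UM c.B x y *
      c.U false true x y j v v' * ind ((fun (x y : G) (a b : ZMod m) =>
        (g.RR x ∧ g.CC y ∧ ¬ (g.W x ∧ g.W y)) ∧ (b = a + 1 ∨ b = a + 2)) x y (lvl (co g x) ω)
          (lvl (co g y) ω)) with hF
    have h := mid g hM hK hUB hN false hj1 hj2 v v' (UM c.B) ((hMA G).1 c.B c.hB).1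
      (fun x y h => adm_of_B (UM_ne h)) (κ0 := (m : ℝ) / 2) (by positivity) (by linarith)
      (by rw [cc_false]; exact h0)
      (fun x y a b => (g.RR x ∧ g.CC y ∧ ¬ (g.W x ∧ g.W y)) ∧ (b = a + 1 ∨ b = a + 2)) F
      (fun ω => rfl)
    refine (pr_mono isPr_unifPi ?_).trans h
    intro ω hω
    by_contra hlt
    apply hω
    unfold evB
    rw [cc_false] at hlt
    have hlt := (not_le.1 hlt).le
    have key : F ω - Ex (unifW (G ⊕ (G × G) → ZMod m)) F =
        ∑ x, ∑ y, (g.aB (g.lev ω) x y - g.mB x y) * c.U false true x y j v v' := by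
      rw [hF, ex_two, ← Finset.sum_sub_distrib]
      refine Finset.sum_congr rfl fun x _ => ?_
      rw [← Finset.sum_sub_distrib]
      refine Finset.sum_congr rfl fun y _ => ?_
      by_cases hxy : UM c.B x y = 0
      · rw [aB_eq]
        unfold Gad.mB
        rw [hxy]
        ring
      · have hne : x ≠ y := by
          rintro rfl
          have := UM_ne hxy
          rw [inv_mul_cancel] at this
          exact c.hB1 this
        rw [aB_eq, lev_eq, lev_eq, ex_ind_and]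
        unfold Gad.mB
        by_cases hp : g.RR x ∧ g.CC y ∧ ¬ (g.W x ∧ g.W y)
        · rw [ex_B g hU hm2 hne hp.2.2, ind_of hp]
          field_simp
        · rw [ind_not hp, ind_not (fun h => hp h.1)]
          ring
    rw [← key]
    refine hlt.trans ?_
    rw [div_eq_mul_one_div, mul_comm]
    exact mul_le_mul_of_nonneg_right (inv_t_le hX1 t3 (by norm_num)) h0.le

theorem evC_mid (hM : MCD_S.{u, 0}) (hU : UPD_S.{u, 0}) (hK : KPF_S.{u}) (hUB : CPLF_S.{u})
    (hN : NUMF_S.{u}) (hMA : MAT_S.{u}) {j : ℕ} (hj1 : 1 ≤ j)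
    (hj2 : j + 1 < c.len true) (v v' : G) :
    Pr (unifW (G ⊕ (G × G) → ZMod m)) (fun ω => ¬ evC g j v v' ω) ≤ 2 * Real.exp (-c.X) := by
  obtain ⟨n1, -, -, n6, -, -, n8, n9, -⟩ := hN G c
  have hX0 : (0 : ℝ) < c.X := lt_of_lt_of_le (by norm_num) n1
  have hX1 : (1 : ℝ) ≤ c.X := le_trans (by norm_num) n1
  obtain ⟨t1, t2, t3⟩ := root_facts hX1 n9
  have hcc0 : 0 ≤ c.cc true (j + 1) v v' := cc_nn _ _ _ _
  have hκ : (0 : ℝ) < 1 / c.X ^ 100 := by positivity
  rcases hcc0.eq_or_lt with h0 | h0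
  · refine pr_false (fun ω h => h ?_) (by positivity)
    unfold evC
    rw [Finset.sum_eq_zero, abs_zero]
    · have h1 := UM_nn c.B v v'
      have h2 := UM_nn c.C v v'
      positivity
    · intro x _
      refine Finset.sum_eq_zero fun y _ => ?_
      rw [U_of_cc h0.symm, mul_zero]
  · set F : (G ⊕ (G × G) → ZMod m) → ℝ := fun ω => ∑ x, ∑ y, 1 / c.X ^ 100 * UM c.C x y *
      c.U true true x y j v v' * ind ((fun (x y : G) (a b : ZMod m) =>
        (¬ g.W x ∧ ¬ g.W y) ∧ (a = 0 ∧ b = 1)) x y (lvl (co g x) ω)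
          (lvl (co g y) ω)) with hF
    have h := mid g hM hK hUB hN true hj1 hj2 v v' (UM c.C) ((hMA G).1 c.C c.hC).1
      (fun x y h => adm_of_C (UM_ne h)) (κ0 := 1 / c.X ^ 100) hκ (by
        have h1 : 1 / c.X ^ 100 ≤ 1 := by
          rw [div_le_one (by positivity)]
          exact one_le_pow₀ hX1
        exact h1.trans (one_le_pow₀ hX1))
      h0
      (fun x y a b => (¬ g.W x ∧ ¬ g.W y) ∧ (a = 0 ∧ b = 1)) F
      (fun ω => rfl)
    refine (pr_mono isPr_unifPi ?_).trans h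
    intro ω hω
    by_contra hlt
    apply hω
    unfold evC
    have hlt := (not_le.1 hlt).le
    have key : F ω - Ex (unifW (G ⊕ (G × G) → ZMod m)) F =
        ∑ x, ∑ y, (g.aC (g.lev ω) x y - g.mC m x y) * c.U true true x y j v v' := by
      rw [hF, ex_two, ← Finset.sum_sub_distrib]
      refine Finset.sum_congr rfl fun x _ => ?_
      rw [← Finset.sum_sub_distrib]
      refine Finset.sum_congr rfl fun y _ => ?_
      by_cases hxy : UM c.C x y = 0
      · rw [aC_eq]
        unfold Gad.mC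
        rw [hxy]
        ring
      · have hne : x ≠ y := by
          rintro rfl
          have := UM_ne hxy
          rw [inv_mul_cancel] at this
          exact c.hC1 this
        rw [aC_eq, lev_eq, lev_eq, ex_ind_and]
        unfold Gad.mC
        by_cases hp : ¬ g.W x ∧ ¬ g.W y
        · rw [ex_C g hU hne hp.1 hp.2, ind_of hp]
          ring
        · rw [ind_not hp, ind_not (fun h => hp h.1)]
          ring
    rw [← key]
    refine hlt.trans ?_
    rw [div_eq_mul_one_div, mul_comm]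
    have h1 := UM_nn c.B v v'
    have h2 := UM_nn c.C v v'
    calc 1 / c.b ^ (1 / 8 : ℝ) * c.cc true (j + 1) v v'
        ≤ 1 / c.b ^ (1 / 8 : ℝ) * (UM c.B v v' + UM c.C v v') :=
          mul_le_mul_of_nonneg_left (cc_le _ _ _) (by positivity)
      _ = 1 / c.b ^ (1 / 8 : ℝ) * UM c.B v v' + 1 / c.b ^ (1 / 8 : ℝ) * UM c.C v v' := by ring
      _ ≤ 1 / c.X ^ 90 * UM c.B v v' + 1 / c.b ^ (1 / 8 : ℝ) * UM c.C v v' := by
          have := mul_le_mul_of_nonneg_right (inv_t_le (n := 90) hX1 t3 (by norm_num)) h1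
          linarith

theorem U_zero_ne {τ : Bool} {x y v v' : G} (h : x ≠ v) : c.U τ true x y 0 v v' = 0 := by
  have h1 : Kn (c.cx τ true x y) 0 0 x v = 0 := by
    unfold Kn
    exact Matrix.one_apply_ne h
  unfold Ctx.U
  rw [h1, zero_mul, zero_mul, zero_div]

theorem U_last_ne {τ : Bool} {x y v v' : G} (h : y ≠ v') :
    c.U τ true x y (6 * c.k + 2) v v' = 0 := by
  have h1 : Kn (c.cx τ true x y) (6 * c.k + 2 + 1) (c.len true - 1 - (6 * c.k + 2)) v' y = 0 := by
    rw [len_true, show 6 * c.k + 3 - 1 - (6 * c.k + 2) = 0 by omega]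
    unfold Kn
    exact Matrix.one_apply_ne (Ne.symm h)
  unfold Ctx.U
  rw [h1, mul_zero, zero_div]

theorem cc_first (τ : Bool) : c.cc τ (0 + 1) = UM c.B := by
  unfold Ctx.cc cF
  rw [if_neg (by norm_num)]

theorem cc_last (τ : Bool) : c.cc τ (6 * c.k + 2 + 1) = UM c.B := by
  unfold Ctx.cc cF
  rw [if_neg (by omega)]

theorem U_first_le (hK : KPF_S.{u}) (hUB : CPLF_S.{u}) (hX : 10 ^ 6 ≤ c.X) {τ : Bool} {v v' y : G}
    (h : c.adm τ true 100 v y) : c.U τ true v y 0 v v' ≤ 2 * c.X * UM c.B v v' := by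
  have h1 := (hUB G c τ true v y h).2.2.2.2.1 0 v v' (by rw [mid_true]; omega)
  have h2 := kp_le_two (c := c) hK τ true (j := 0) (j' := 0 + 1) (v⁻¹ * v') (by omega) (by omega)
    (by rw [ha_true]; omega) v v
  rw [cc_first] at h1
  have h3 := UM_nn c.B v v'
  calc c.U τ true v y 0 v v' ≤ 5 / 4 * c.kp τ (c.ha true) 0 (0 + 1) (v⁻¹ * v') v v * UM c.B v v' := h1
    _ ≤ 5 / 4 * 2 * UM c.B v v' := by gcongr
    _ ≤ 2 * c.X * UM c.B v v' := mul_le_mul_of_nonneg_right (by linarith) h3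

theorem U_last_le (hK : KPF_S.{u}) (hUB : CPLF_S.{u}) (hX : 10 ^ 6 ≤ c.X) {τ : Bool} {v v' x : G}
    (hk : 1 ≤ c.k) (h : c.adm τ true 100 x v') :
    c.U τ true x v' (6 * c.k + 2) v v' ≤ 2 * c.X * UM c.B v v' := by
  have h1 := (hUB G c τ true x v' h).2.2.2.2.2.1 (6 * c.k + 2) v v' (by rw [mid_true]; omega)
    (by rw [len_true]; omega)
  rw [len_true, show 6 * c.k + 3 - 1 - (6 * c.k + 2) = 0 by omega,
    show 6 * c.k + 3 - (6 * c.k + 2) = 1 by omega, cc_last] at h1
  have h2 := kp_le_two (c := c) hK τ false (j := 0) (j' := 1) (v'⁻¹ * v) (by omega) (by omega)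
    (by rw [ha_false]; omega) v' v'
  rw [ha_false] at h2
  have h3 := UM_nn c.B v v'
  calc c.U τ true x v' (6 * c.k + 2) v v' ≤ 5 / 4 * c.kp τ c.k 0 1 (v'⁻¹ * v) v' v' * UM c.B v v' := h1
    _ ≤ 5 / 4 * 2 * UM c.B v v' := by gcongr
    _ ≤ 2 * c.X * UM c.B v v' := mul_le_mul_of_nonneg_right (by linarith) h3

/-- the numerical inequality at the ends -/
theorem end_num {X t cc m : ℝ} (hX : 10 ^ 6 ≤ X) (ht : X ^ 25000 ≤ t) (hcc : 0 ≤ cc)
    (hm : m ≤ 2 * X ^ 1000) :
    cc / t + m * X * cc * (1 / X ^ 2990) ≤ 1 / X ^ 90 * cc := by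
  have hX0 : (0 : ℝ) < X := lt_of_lt_of_le (by norm_num) hX
  have hX1 : (1 : ℝ) ≤ X := le_trans (by norm_num) hX
  have h1 : 1 / t ≤ 1 / X ^ 91 := inv_t_le hX1 ht (by norm_num)
  have h2 : m * X * (1 / X ^ 2990) ≤ 2 * (1 / X ^ 91) := by
    calc m * X * (1 / X ^ 2990) ≤ 2 * X ^ 1000 * X * (1 / X ^ 2990) := by gcongr
      _ = 2 * (1 / X ^ 1989) := by field_simp
      _ ≤ 2 * (1 / X ^ 91) := by
          have := one_div_le_one_div_of_le (pow_pos hX0 91)
            (pow_le_pow_right₀ hX1 (by norm_num : 91 ≤ 1989))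
          linarith
  have h3 : 3 * (1 / X ^ 91) ≤ 1 / X ^ 90 := by
    rw [show (91 : ℕ) = 90 + 1 from rfl, pow_succ X 90]
    rw [← mul_div_assoc, mul_one, div_le_div_iff₀ (by positivity) (by positivity), one_mul, mul_comm]
    exact mul_le_mul_of_nonneg_left (by linarith) (by positivity)
  calc cc / t + m * X * cc * (1 / X ^ 2990) = (1 / t + m * X * (1 / X ^ 2990)) * cc := by ring
    _ ≤ 1 / X ^ 90 * cc := mul_le_mul_of_nonneg_right (by linarith) hcc

theorem W1_light (hP : PKSF_S.{u}) (hN : 1 ≤ N) (v : G) (st : G → Prop)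
    (h : ∀ y, st y ∧ co g y = none → W1 g y) :
    ∑ y, UM c.B v y * ind (st y ∧ co g y = none) ≤ 1 / c.X ^ 2990 := by
  obtain ⟨-, -, -, -, -, -, -, p8, p9, -, -⟩ := hP G c
  have h1 := g.light true (UM c.B) (p8 1 N _ hN p9) v
  calc ∑ y, UM c.B v y * ind (st y ∧ co g y = none)
      ≤ ∑ y, ind (∃ e ∈ g.res.E true, y ∈ g.Vs true e) * UM c.B v y := by
        refine Finset.sum_le_sum fun y _ => ?_
        rw [mul_comm]
        exact mul_le_mul_of_nonneg_right (ind_mono (h y)) (UM_nn _ _ _)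
    _ ≤ c.del true := h1
    _ = 1 / c.X ^ 2990 := by
        unfold Ctx.del
        rw [if_pos rfl]

theorem evB_first (hM : MCD_S.{u, 0}) (hU : UPD_S.{u, 0}) (hBa : BASIC_S.{u, 0})
    (hK : KPF_S.{u}) (hUB : CPLF_S.{u}) (hN : NUMF_S.{u}) (hMA : MAT_S.{u}) (hP : PKSF_S.{u}) (hN1 : 1 ≤ N)
    (hm : c.mOK m) (v v' : G) :
    Pr (unifW (G ⊕ (G × G) → ZMod m)) (fun ω => ¬ evB g 0 v v' ω) ≤
      m * (2 * Real.exp (-c.X)) := by
  obtain ⟨n1, -, -, n6, -, -, n8, n9, -⟩ := hN G c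
  have hX0 : (0 : ℝ) < c.X := lt_of_lt_of_le (by norm_num) n1
  have hX1 : (1 : ℝ) ≤ c.X := le_trans (by norm_num) n1
  obtain ⟨t1, t2, t3⟩ := root_facts hX1 n9
  obtain ⟨m1, m2⟩ := hm
  have hm1 : (2 : ℝ) ≤ m := by
    refine le_trans ?_ m1
    calc (2 : ℝ) ≤ c.X ^ 1 := by rw [pow_one]; exact le_trans (by norm_num) n1
      _ ≤ c.X ^ 1000 := pow_le_pow_right₀ hX1 (by norm_num)
  have hm2 : 2 ≤ m := by exact_mod_cast hm1
  have hm0 : (0 : ℝ) < m := by linarith
  rcases (UM_nn c.B v v').eq_or_lt with h0 | h0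
  · refine pr_false (fun ω h => h ?_) (by positivity)
    unfold evB
    rw [Finset.sum_eq_zero, abs_zero, ← h0, mul_zero]
    intro x _
    refine Finset.sum_eq_zero fun y _ => ?_
    rw [U_of_cc (by rw [cc_false, ← h0]), mul_zero]
  · set cc := UM c.B v v' with hcc
    set t := c.b ^ (1 / 8 : ℝ)
    have hw0 : ∀ y, 0 ≤ (m : ℝ) / 2 * UM c.B v y * c.U false true v y 0 v v' := by
      intro y
      by_cases h : UM c.B v y = 0
      · rw [h, mul_zero, zero_mul]
      · exact mul_nonneg (mul_nonneg (by positivity) (UM_nn _ _ _))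
          ((hUB G c false true v y (adm_of_B (UM_ne h))).2.2.1 0 v v' (by rw [len_true]; omega))
    have h := conc1 (m := m) hM hU hBa (co g) (co_fib g)
      (fun y => (m : ℝ) / 2 * UM c.B v y * c.U false true v y 0 v v') (fun y => UM c.B v y)
      (A := m * c.X * cc) (β := 1 / c.b) (d := cc / t) (δ := 1 / c.X ^ 2990) hm2
      (by positivity) (by positivity) (by positivity) hw0
      (by
        intro y
        by_cases h : UM c.B v y = 0
        · rw [h]
          simp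
        · have h1 := U_first_le hK hUB n1 (v' := v') (adm_of_B (τ := false) (UM_ne h))
          calc (m : ℝ) / 2 * UM c.B v y * c.U false true v y 0 v v'
              ≤ (m : ℝ) / 2 * UM c.B v y * (2 * c.X * cc) :=
                mul_le_mul_of_nonneg_left h1 (mul_nonneg (by positivity) (UM_nn _ _ _))
            _ = m * c.X * cc * UM c.B v y := by ring)
      (fun y => (hMA G).2.2.2.2.2.2.2 c.B c.hB v y) (((hMA G).1 c.B c.hB).1.row v).le
      (fun y => g.RR v ∧ g.CC y ∧ ¬ (g.W v ∧ g.W y))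
      (W1_light g hP hN1 v _ (fun y hy => W1_of_CC g hy.1.2.1 hy.2))
      (fun l => {l + 1, l + 2}) (fun l => pair_card hm2 l)
    have hexp : c.X ≤ (cc / t) ^ 2 / (16 * (m * c.X * cc) ^ 2 * (1 / c.b)) := by
      refine expo n1 t1 t2 t3 (by positivity) ?_ h0
      calc m * c.X ≤ 2 * c.X ^ 1000 * c.X := by gcongr
        _ = 2 * c.X ^ 1001 := by ring
    refine le_trans ?_ (h.trans (mul_le_mul_of_nonneg_left
      (mul_le_mul_of_nonneg_left (exp_le hexp) (by norm_num)) hm0.le))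
    refine pr_mono isPr_unifPi ?_
    intro ω hω
    refine ⟨g.lev ω v, ?_⟩
    refine (end_num n1 t3 h0.le m2).trans ?_
    unfold evB at hω
    refine (not_le.1 hω).le.trans (le_of_eq ?_)
    congr 1
    rw [Finset.sum_eq_single v]
    · rw [← Finset.sum_sub_distrib]
      refine Finset.sum_congr rfl fun y _ => ?_
      rw [aB_eq, ← lev_eq]
      unfold Gad.mB
      simp only [Finset.mem_insert, Finset.mem_singleton]
      field_simp
    · intro x _ hx
      refine Finset.sum_eq_zero fun y _ => ?_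
      rw [U_zero_ne hx, mul_zero]
    · intro h
      exact absurd (Finset.mem_univ v) h

theorem evB_last (hM : MCD_S.{u, 0}) (hU : UPD_S.{u, 0}) (hBa : BASIC_S.{u, 0})
    (hK : KPF_S.{u}) (hUB : CPLF_S.{u}) (hN : NUMF_S.{u}) (hMA : MAT_S.{u}) (hP : PKSF_S.{u}) (hN1 : 1 ≤ N)
    (hm : c.mOK m) (v v' : G) :
    Pr (unifW (G ⊕ (G × G) → ZMod m)) (fun ω => ¬ evB g (6 * c.k + 2) v v' ω) ≤
      m * (2 * Real.exp (-c.X)) := by
  obtain ⟨n1, -, -, n6, -, -, n8, n9, -⟩ := hN G c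
  have hX0 : (0 : ℝ) < c.X := lt_of_lt_of_le (by norm_num) n1
  have hX1 : (1 : ℝ) ≤ c.X := le_trans (by norm_num) n1
  obtain ⟨t1, t2, t3⟩ := root_facts hX1 n9
  obtain ⟨m1, m2⟩ := hm
  have hm1 : (2 : ℝ) ≤ m := by
    refine le_trans ?_ m1
    calc (2 : ℝ) ≤ c.X ^ 1 := by rw [pow_one]; exact le_trans (by norm_num) n1
      _ ≤ c.X ^ 1000 := pow_le_pow_right₀ hX1 (by norm_num)
  have hm2 : 2 ≤ m := by exact_mod_cast hm1
  have hm0 : (0 : ℝ) < m := by linarith
  have hsy : ∀ x y, UM c.B x y = UM c.B y x := by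
    intro x y
    have := ((hMA G).1 c.B c.hB).2.2
    exact (congrFun (congrFun this x) y).symm
  rcases (UM_nn c.B v v').eq_or_lt with h0 | h0
  · refine pr_false (fun ω h => h ?_) (by positivity)
    unfold evB
    rw [Finset.sum_eq_zero, abs_zero, ← h0, mul_zero]
    intro x _
    refine Finset.sum_eq_zero fun y _ => ?_
    rw [U_of_cc (by rw [cc_false, ← h0]), mul_zero]
  · set cc := UM c.B v v' with hcc
    set t := c.b ^ (1 / 8 : ℝ)
    have hw0 : ∀ x, 0 ≤ (m : ℝ) / 2 * UM c.B v' x * c.U false true x v' (6 * c.k + 2) v v' := by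
      intro x
      by_cases h : UM c.B v' x = 0
      · rw [h, mul_zero, zero_mul]
      · rw [hsy] at h
        exact mul_nonneg (mul_nonneg (by positivity) (UM_nn _ _ _))
          ((hUB G c false true x v' (adm_of_B (UM_ne h))).2.2.1 _ v v' (by rw [len_true]; omega))
    have h := conc1 (m := m) hM hU hBa (co g) (co_fib g)
      (fun x => (m : ℝ) / 2 * UM c.B v' x * c.U false true x v' (6 * c.k + 2) v v')
      (fun x => UM c.B v' x)
      (A := m * c.X * cc) (β := 1 / c.b) (d := cc / t) (δ := 1 / c.X ^ 2990) hm2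
      (by positivity) (by positivity) (by positivity) hw0
      (by
        intro x
        by_cases h : UM c.B v' x = 0
        · rw [h]
          simp
        · rw [hsy] at h
          have h1 := U_last_le hK hUB n1 (v := v) (by omega) (adm_of_B (τ := false) (UM_ne h))
          calc (m : ℝ) / 2 * UM c.B v' x * c.U false true x v' (6 * c.k + 2) v v'
              ≤ (m : ℝ) / 2 * UM c.B v' x * (2 * c.X * cc) :=
                mul_le_mul_of_nonneg_left h1 (mul_nonneg (by positivity) (UM_nn _ _ _))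
            _ = m * c.X * cc * UM c.B v' x := by ring)
      (fun y => (hMA G).2.2.2.2.2.2.2 c.B c.hB v' y) (((hMA G).1 c.B c.hB).1.row v').le
      (fun x => g.RR x ∧ g.CC v' ∧ ¬ (g.W x ∧ g.W v'))
      (W1_light g hP hN1 v' _ (fun x hx => W1_of_RR g hx.1.1 hx.2))
      (fun l => {l - 1, l - 2}) (fun l => pair_card' hm2 l)
    have hexp : c.X ≤ (cc / t) ^ 2 / (16 * (m * c.X * cc) ^ 2 * (1 / c.b)) := by
      refine expo n1 t1 t2 t3 (by positivity) ?_ h0
      calc m * c.X ≤ 2 * c.X ^ 1000 * c.X := by gcongr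
        _ = 2 * c.X ^ 1001 := by ring
    refine le_trans ?_ (h.trans (mul_le_mul_of_nonneg_left
      (mul_le_mul_of_nonneg_left (exp_le hexp) (by norm_num)) hm0.le))
    refine pr_mono isPr_unifPi ?_
    intro ω hω
    refine ⟨g.lev ω v', ?_⟩
    refine (end_num n1 t3 h0.le m2).trans ?_
    unfold evB at hω
    refine (not_le.1 hω).le.trans (le_of_eq ?_)
    congr 1
    rw [← Finset.sum_sub_distrib]
    refine Finset.sum_congr rfl fun x _ => ?_
    rw [Finset.sum_eq_single v']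
    · rw [aB_eq, ← lev_eq]
      unfold Gad.mB
      simp only [mem_pair']
      rw [hsy x v']
      field_simp
    · intro y _ hy
      rw [U_last_ne hy, mul_zero]
    · intro h
      exact absurd (Finset.mem_univ v') h

/-- the weight of one `C`-arc differs from its mean by little -/
theorem aC_sub_le (hX : 1 ≤ c.X) (lv : G → ZMod m) (x y : G) :
    |g.aC lv x y - g.mC m x y| ≤ 1 / c.X ^ 100 * UM c.C x y := by
  have hX0 : (0 : ℝ) < c.X := by linarith
  have hm0 : (0 : ℝ) < m := by exact_mod_cast Nat.pos_of_ne_zero (NeZero.ne m)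
  have hm1 : (1 : ℝ) ≤ m := by exact_mod_cast Nat.pos_of_ne_zero (NeZero.ne m)
  have h0 := UM_nn c.C x y
  have hk : (0 : ℝ) ≤ 1 / c.X ^ 100 * UM c.C x y := by positivity
  have h1 : 0 ≤ g.aC lv x y := by
    rw [aC_eq]
    exact mul_nonneg hk (ind_nonneg _)
  have h2 : g.aC lv x y ≤ 1 / c.X ^ 100 * UM c.C x y := by
    rw [aC_eq]
    exact mul_le_of_le_one_right hk (ind_le_one _)
  have h3 : 0 ≤ g.mC m x y := by
    unfold Gad.mC
    have := ind_nonneg (¬ g.W x ∧ ¬ g.W y)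
    positivity
  have h4 : g.mC m x y ≤ 1 / c.X ^ 100 * UM c.C x y := by
    unfold Gad.mC
    have h5 : 1 / c.X ^ 100 / (m : ℝ) ^ 2 * UM c.C x y ≤ 1 / c.X ^ 100 * UM c.C x y := by
      refine mul_le_mul_of_nonneg_right ?_ h0
      exact div_le_self (by positivity) (one_le_pow₀ hm1)
    exact (mul_le_of_le_one_left (by positivity) (ind_le_one _)).trans h5
  rw [abs_le]
  constructor <;> linarith

theorem evC_num {X : ℝ} (hX : 10 ^ 6 ≤ X) : 1 / X ^ 100 * (2 * X) ≤ 1 / X ^ 90 := by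
  have hX0 : (0 : ℝ) < X := lt_of_lt_of_le (by norm_num) hX
  have hX1 : (1 : ℝ) ≤ X := le_trans (by norm_num) hX
  calc 1 / X ^ 100 * (2 * X) ≤ 1 / X ^ 100 * (X * X) := by
        refine mul_le_mul_of_nonneg_left ?_ (by positivity)
        exact mul_le_mul_of_nonneg_right (by linarith) hX0.le
    _ = 1 / X ^ 98 := by field_simp
    _ ≤ 1 / X ^ 90 := one_div_le_one_div_of_le (pow_pos hX0 90)
      (pow_le_pow_right₀ hX1 (by norm_num))

theorem evC_first (hK : KPF_S.{u}) (hUB : CPLF_S.{u}) (hN : NUMF_S.{u}) (hMA : MAT_S.{u}) (v v' : G)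
    (ω : G ⊕ (G × G) → ZMod m) : evC g 0 v v' ω := by
  obtain ⟨n1, -, -, n6, -, -, n8, n9, -⟩ := hN G c
  have hX0 : (0 : ℝ) < c.X := lt_of_lt_of_le (by norm_num) n1
  have hX1 : (1 : ℝ) ≤ c.X := le_trans (by norm_num) n1
  obtain ⟨t1, t2, t3⟩ := root_facts hX1 n9
  have hB0 := UM_nn c.B v v'
  have hC0 := UM_nn c.C v v'
  unfold evC
  rw [Finset.sum_eq_single v]
  · have h1 : |∑ y, (g.aC (g.lev ω) v y - g.mC m v y) * c.U true true v y 0 v v'| ≤
        ∑ y, 1 / c.X ^ 100 * (2 * c.X) * UM c.B v v' * UM c.C v y := by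
      refine (Finset.abs_sum_le_sum_abs _ _).trans (Finset.sum_le_sum fun y _ => ?_)
      rw [abs_mul]
      have h2 := aC_sub_le g hX1 (g.lev ω) v y
      by_cases h : UM c.C v y = 0
      · rw [h, mul_zero] at h2
        have h3 : |g.aC (g.lev ω) v y - g.mC m v y| = 0 := le_antisymm h2 (abs_nonneg _)
        rw [h3, h]
        simp
      · have h3 := U_first_le hK hUB n1 (v' := v') (adm_of_C (UM_ne h))
        have h4 := (hUB G c true true v y (adm_of_C (UM_ne h))).2.2.1 0 v v' (by rw [len_true]; omega)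
        rw [abs_of_nonneg h4]
        calc |g.aC (g.lev ω) v y - g.mC m v y| * c.U true true v y 0 v v'
            ≤ (1 / c.X ^ 100 * UM c.C v y) * (2 * c.X * UM c.B v v') :=
              mul_le_mul h2 h3 h4 (mul_nonneg (by positivity) (UM_nn _ _ _))
          _ = 1 / c.X ^ 100 * (2 * c.X) * UM c.B v v' * UM c.C v y := by ring
    refine h1.trans ?_
    rw [← Finset.mul_sum, ((hMA G).1 c.C c.hC).1.row v, mul_one]
    have h5 := mul_le_mul_of_nonneg_right (evC_num n1) hB0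
    have h6 : 0 ≤ 1 / c.b ^ (1 / 8 : ℝ) * UM c.C v v' := by positivity
    linarith
  · intro x _ hx
    refine Finset.sum_eq_zero fun y _ => ?_
    rw [U_zero_ne hx, mul_zero]
  · intro h
    exact absurd (Finset.mem_univ v) h

theorem evC_last (hK : KPF_S.{u}) (hUB : CPLF_S.{u}) (hN : NUMF_S.{u}) (hMA : MAT_S.{u}) (v v' : G)
    (ω : G ⊕ (G × G) → ZMod m) : evC g (6 * c.k + 2) v v' ω := by
  obtain ⟨n1, -, -, n6, -, -, n8, n9, -⟩ := hN G c
  have hX0 : (0 : ℝ) < c.X := lt_of_lt_of_le (by norm_num) n1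
  have hX1 : (1 : ℝ) ≤ c.X := le_trans (by norm_num) n1
  obtain ⟨t1, t2, t3⟩ := root_facts hX1 n9
  have hB0 := UM_nn c.B v v'
  have hC0 := UM_nn c.C v v'
  unfold evC
  have h1 : |∑ x, ∑ y, (g.aC (g.lev ω) x y - g.mC m x y) * c.U true true x y (6 * c.k + 2) v v'| ≤
      ∑ x, 1 / c.X ^ 100 * (2 * c.X) * UM c.B v v' * UM c.C x v' := by
    refine (Finset.abs_sum_le_sum_abs _ _).trans (Finset.sum_le_sum fun x _ => ?_)
    rw [Finset.sum_eq_single v']
    · rw [abs_mul]
      have h2 := aC_sub_le g hX1 (g.lev ω) x v'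
      by_cases h : UM c.C x v' = 0
      · rw [h, mul_zero] at h2
        have h3 : |g.aC (g.lev ω) x v' - g.mC m x v'| = 0 := le_antisymm h2 (abs_nonneg _)
        rw [h3, h]
        simp
      · have h3 := U_last_le hK hUB n1 (v := v) (by omega) (adm_of_C (UM_ne h))
        have h4 := (hUB G c true true x v' (adm_of_C (UM_ne h))).2.2.1 (6 * c.k + 2) v v'
          (by rw [len_true]; omega)
        rw [abs_of_nonneg h4]
        calc |g.aC (g.lev ω) x v' - g.mC m x v'| * c.U true true x v' (6 * c.k + 2) v v'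
            ≤ (1 / c.X ^ 100 * UM c.C x v') * (2 * c.X * UM c.B v v') :=
              mul_le_mul h2 h3 h4 (mul_nonneg (by positivity) (UM_nn _ _ _))
          _ = 1 / c.X ^ 100 * (2 * c.X) * UM c.B v v' * UM c.C x v' := by ring
    · intro y _ hy
      rw [U_last_ne hy, mul_zero]
    · intro h
      exact absurd (Finset.mem_univ v') h
  refine h1.trans ?_
  rw [← Finset.mul_sum, ((hMA G).1 c.C c.hC).1.col v', mul_one]
  have h5 := mul_le_mul_of_nonneg_right (evC_num n1) hB0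
  have h6 : 0 ≤ 1 / c.b ^ (1 / 8 : ℝ) * UM c.C v v' := by positivity
  linarith

/-- one event -/
theorem ev_all (hM : MCD_S.{u, 0}) (hU : UPD_S.{u, 0}) (hBa : BASIC_S.{u, 0})
    (hK : KPF_S.{u}) (hUB : CPLF_S.{u}) (hN : NUMF_S.{u}) (hMA : MAT_S.{u}) (hP : PKSF_S.{u})
    (hN1 : 1 ≤ N) (hm : c.mOK m) {j : ℕ} (hj : j < c.len true) (v v' : G) :
    Pr (unifW (G ⊕ (G × G) → ZMod m)) (fun ω => ¬ evB g j v v' ω) ≤
      m * (2 * Real.exp (-c.X)) ∧
    Pr (unifW (G ⊕ (G × G) → ZMod m)) (fun ω => ¬ evC g j v v' ω) ≤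
      m * (2 * Real.exp (-c.X)) := by
  have hm1 : (1 : ℝ) ≤ m := by exact_mod_cast Nat.pos_of_ne_zero (NeZero.ne m)
  have he : (0 : ℝ) ≤ 2 * Real.exp (-c.X) := by positivity
  have h1 : 2 * Real.exp (-c.X) ≤ m * (2 * Real.exp (-c.X)) := le_mul_of_one_le_left he hm1
  have h0 : (0 : ℝ) ≤ m * (2 * Real.exp (-c.X)) := by positivity
  rcases Nat.eq_zero_or_pos j with rfl | hj1
  · exact ⟨evB_first g hM hU hBa hK hUB hN hMA hP hN1 hm v v',
      pr_false (fun ω h => h (evC_first g hK hUB hN hMA v v' ω)) h0⟩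
  · rw [len_true] at hj
    rcases Nat.lt_or_ge j (6 * c.k + 2) with h2 | h2
    · have h3 : j + 1 < c.len true := by rw [len_true]; omega
      exact ⟨(evB_mid g hM hU hK hUB hN hMA hm hj1 h3 v v').trans h1,
        (evC_mid g hM hU hK hUB hN hMA hj1 h3 v v').trans h1⟩
    · obtain rfl : j = 6 * c.k + 2 := by omega
      exact ⟨evB_last g hM hU hBa hK hUB hN hMA hP hN1 hm v v',
        pr_false (fun ω h => h (evC_last g hK hUB hN hMA v v' ω)) h0⟩

end main

/-- REG5 -/
theorem reg5f (hM : MCD_S.{u, 0}) (hU : UPD_S.{u, 0}) (hBa : BASIC_S.{u, 0})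
    (hBb : BASIC_S.{u, u}) (hK : KPF_S.{u}) (hUB : CPLF_S.{u}) (hN : NUMF_S.{u}) (hMA : MAT_S.{u})
    (hP : PKSF_S.{u}) : REG5F_S.{u} := by
  intro G _ _ _ c N g m _ hN4 hm
  obtain ⟨n1, n2, -, n6, -, -, n8, n9, n10, -, -, -, -, -, n13, -⟩ := hN G c
  have hX0 : (0 : ℝ) < c.X := lt_of_lt_of_le (by norm_num) n1
  have hX1 : (1 : ℝ) ≤ c.X := le_trans (by norm_num) n1
  set Ev : Bool × (Fin (c.len true) × (G × G)) → (G ⊕ (G × G) → ZMod m) → Prop :=
    fun i ω => if i.1 then ¬ evB g i.2.1 i.2.2.1 i.2.2.2 ω else ¬ evC g i.2.1 i.2.2.1 i.2.2.2 ω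
    with hEv
  obtain ⟨-, hb2, -, -, -, -⟩ := hBb (G ⊕ (G × G) → ZMod m) (unifW _) isPr_unifPi
  have h1 : Pr (unifW (G ⊕ (G × G) → ZMod m)) (fun lam => ¬ g.e5 (g.lev lam)) ≤
      Pr (unifW (G ⊕ (G × G) → ZMod m)) (fun ω => ∃ i, Ev i ω) := by
    refine pr_mono isPr_unifPi ?_
    intro ω hω
    unfold Gad.e5 at hω
    push Not at hω
    obtain ⟨j, v, v', hj, h⟩ := hω
    by_cases h2 : evB g j v v' ω
    · refine ⟨(false, ⟨j, hj⟩, v, v'), ?_⟩
      change ¬ evC g j v v' ω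
      exact not_le.2 (h h2)
    · exact ⟨(true, ⟨j, hj⟩, v, v'), h2⟩
  have h2 := hb2 _ Ev
  have h3 : ∀ i, Pr (unifW (G ⊕ (G × G) → ZMod m)) (Ev i) ≤ m * (2 * Real.exp (-c.X)) := by
    rintro ⟨b, ⟨j, hj⟩, v, v'⟩
    have h4 := ev_all g hM hU hBa hK hUB hN hMA hP (by omega) hm hj v v'
    cases b
    · exact h4.2
    · exact h4.1
  have h5 : ∑ i, Pr (unifW (G ⊕ (G × G) → ZMod m)) (Ev i) ≤
      (2 * ((6 * c.k + 3) * ((Fintype.card G : ℝ) * Fintype.card G))) *
        (m * (2 * Real.exp (-c.X))) := by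
    refine (Finset.sum_le_sum fun i _ => h3 i).trans (le_of_eq ?_)
    rw [Finset.sum_const, Finset.card_univ, nsmul_eq_mul, Fintype.card_prod, Fintype.card_prod,
      Fintype.card_prod, Fintype.card_bool, Fintype.card_fin, len_true]
    push_cast
    ring
  refine (h1.trans (h2.trans h5)).trans ?_
  set n : ℝ := (Fintype.card G : ℝ) with hn
  have hbn : c.X ^ 200000 ≤ n := n9.trans n10
  have hn1 : 1 ≤ n := (one_le_pow₀ hX1).trans hbn
  have hn0 : 0 < n := by linarith
  have hexp := n13 c.X le_rfl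
  have hk : (6 * c.k + 3 : ℝ) ≤ c.X := by
    have hk0 : (1 : ℝ) ≤ 10 ^ 6 * c.k := by
      have : (100 : ℝ) ≤ c.k := by exact_mod_cast n6
      linarith
    have h6 : (10 ^ 6 * c.k : ℝ) ≤ (10 ^ 6 * c.k : ℝ) ^ 200 := by
      calc (10 ^ 6 * c.k : ℝ) = (10 ^ 6 * c.k : ℝ) ^ 1 := (pow_one _).symm
        _ ≤ (10 ^ 6 * c.k : ℝ) ^ 200 := pow_le_pow_right₀ hk0 (by norm_num)
    have : (100 : ℝ) ≤ c.k := by exact_mod_cast n6
    linarith
  obtain ⟨m1, m2⟩ := hm
  have hcoef : 2 * (6 * c.k + 3) * (m * 2) ≤ n := by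
    calc 2 * (6 * c.k + 3 : ℝ) * (m * 2) ≤ 2 * c.X * (2 * c.X ^ 1000 * 2) := by gcongr
      _ = 8 * c.X ^ 1001 := by ring
      _ ≤ c.X * c.X ^ 1001 := mul_le_mul_of_nonneg_right (by linarith) (by positivity)
      _ = c.X ^ 1002 := by ring
      _ ≤ c.X ^ 200000 := pow_le_pow_right₀ hX1 (by norm_num)
      _ ≤ n := hbn
  rw [le_div_iff₀ (by positivity)]
  calc 2 * ((6 * c.k + 3) * (n * n)) * (m * (2 * Real.exp (-c.X))) * n ^ 2
      = 2 * (6 * c.k + 3) * (m * 2) * (n ^ 4 * Real.exp (-c.X)) := by ring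
    _ ≤ n * (n ^ 4 * Real.exp (-c.X)) := mul_le_mul_of_nonneg_right hcoef (by positivity)
    _ = Real.exp (-c.X) * n ^ 5 := by ring
    _ ≤ Real.exp (-c.X) * n ^ 1000 :=
      mul_le_mul_of_nonneg_left (pow_le_pow_right₀ hn1 (by norm_num)) (Real.exp_pos _).le
    _ ≤ 1 := hexp

end Pool.Agent.Lib.MP_688fd0_co.TF.H57
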