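import Pool.Agent.Lib.MP_688fd0_co.TF.Iface78
import Pool.Agent.Lib.MP_688fd0_co.TE.H91.Gadget
import Pool.Agent.Lib.MP_688fd0_co.TE.H91.Cyc6
import Pool.Agent.Lib.MP_688fd0_co.TE.H91.Halve

/-!
# Theorem F (port of TE), bridge from the reservoir with gadgets to tokens and ports
-/

namespace Pool.Agent.Lib.MP_688fd0_co.TF

open Pool.Agent.Lib.MP_688fd0_co.TE

open Pool.Agent.Lib.MP_688fd0_co

universe u

section

variable {G : Type u} [Group G] [Fintype G] [DecidableEq G]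

/-- The Cayley graph. -/
def Ctx.Ga (c : Ctx G) : SimpleGraph G := cay ((c.B ∪ c.C : Finset G) : Set G)

theorem Ctx.lt_sub (c : Ctx G) (τ : Bool) {s : G} (h : s ∈ Lt c.B c.C τ) : s ∈ c.B ∪ c.C := by
  cases τ
  · exact Finset.mem_union_left _ h
  · exact h

theorem Ctx.lt_ne (c : Ctx G) (τ : Bool) {s : G} (h : s ∈ Lt c.B c.C τ) : s ≠ 1 := by
  rintro rfl
  rcases Finset.mem_union.1 (c.lt_sub τ h) with h1 | h1
  · exact c.hB1 h1
  · exact c.hC1 h1

theorem Ctx.adj (c : Ctx G) (τ : Bool) {x y : G} (h : x⁻¹ * y ∈ Lt c.B c.C τ) : c.Ga.Adj x y := by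
  unfold Ctx.Ga cay
  rw [SimpleGraph.fromRel_adj]
  refine ⟨?_, Or.inl (c.lt_sub τ h)⟩
  rintro rfl
  rw [inv_mul_cancel] at h
  exact c.lt_ne τ h rfl

variable {c : Ctx G} {N : ℕ} (g : Gad c N)

/-- The set of R-edges. -/
def Gad.RE : Set (G × G) := {e | ∃ τ, e ∈ g.res.E τ}

/-- The kind of an R-edge. -/
def Gad.kd (e : G × G) : Bool := decide (e ∈ g.res.E true)

theorem Gad.kd_eq {τ : Bool} {e : G × G} (h : e ∈ g.res.E τ) : g.kd e = τ := by
  unfold Gad.kd
  cases τ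
  · rw [decide_eq_false_iff_not]
    intro h1
    exact (g.res.disj true false e e h1 h (by simp)).1 rfl
  · rw [decide_eq_true_eq]; exact h

theorem Gad.kd_mem {e : G × G} (h : e ∈ g.RE) : e ∈ g.res.E (g.kd e) := by
  obtain ⟨τ, h1⟩ := h
  rw [g.kd_eq h1]; exact h1

theorem Gad.okk {e : G × G} (h : e ∈ g.RE) :
    GadOK (Lt c.B c.C (g.kd e)) e (g.Vs (g.kd e) e) (g.i (g.kd e) e) (g.o (g.kd e) e)
      (g.Pa (g.kd e) e) (g.Pn (g.kd e) e) := g.ok _ e (g.kd_mem h)

/-- Two R-edges with a common gadget vertex are equal. -/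
theorem Gad.vs_inj {e e' : G × G} (h : e ∈ g.RE) (h' : e' ∈ g.RE) {v : G}
    (hv : v ∈ g.Vs (g.kd e) e) (hv' : v ∈ g.Vs (g.kd e') e') : e = e' := by
  by_contra hne
  have := g.disj _ _ e e' (g.kd_mem h) (g.kd_mem h') (by
    intro h1; exact hne (congrArg Prod.snd h1))
  exact (Finset.disjoint_left.1 this) hv hv'

theorem steps_chain {c : Ctx G} {τ : Bool} {l : List G} (h : steps (Lt c.B c.C τ) l) :
    l.IsChain c.Ga.Adj := by
  unfold steps at h
  exact h.imp (fun a b hab => c.adj τ hab)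

/-- The system of gadgets. -/
def Gad.gs : GS c.Ga g.RE where
  Pa e := g.Pa (g.kd e) e
  Pn e := g.Pn (g.kd e) e
  ie e := g.i (g.kd e) e
  oe e := g.o (g.kd e) e
  pa_chain e he := steps_chain (g.okk he).as
  pn_chain e he := steps_chain (g.okk he).ns
  pa_head e he := (g.okk he).ah
  pa_last e he := (g.okk he).al
  pn_head e he := (g.okk he).nh
  pn_last e he := (g.okk he).nl
  perm e he := by
    have h := g.okk he
    have hne : e.1 ≠ e.2 := by
      intro h1
      have h2 := g.res.lett _ e (g.kd_mem he)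
      rw [h1, inv_mul_cancel] at h2
      exact c.lt_ne _ h2 rfl
    rw [List.perm_ext_iff_of_nodup h.an]
    · intro v
      rw [List.mem_cons, List.mem_cons, h.av, h.nv]
      constructor
      · intro hv
        by_cases h1 : v = e.1
        · exact Or.inl h1
        by_cases h2 : v = e.2
        · exact Or.inr (Or.inl h2)
        exact Or.inr (Or.inr ⟨hv, h1, h2⟩)
      · rintro (rfl | rfl | hv)
        · exact h.e1
        · exact h.e2
        · exact hv.1
    · rw [List.nodup_cons, List.nodup_cons]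
      refine ⟨?_, ?_, h.nn⟩
      · rw [List.mem_cons, h.nv]
        rintro (h1 | h1)
        · exact hne h1
        · exact h1.2.1 rfl
      · rw [h.nv]
        intro h1
        exact h1.2.2 rfl
  nodup e he := (g.okk he).an
  disj e he e' he' hne v hv hv' := by
    rw [(g.okk he).av] at hv
    rw [(g.okk he').av] at hv'
    exact hne (g.vs_inj he he' hv hv')

theorem Gad.mem_V' {v : G} : v ∈ g.gs.V' ↔ ¬ g.W v := by
  constructor
  · rintro h ⟨τ, e, he, hv⟩
    have hRE : e ∈ g.RE := ⟨τ, he⟩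
    apply h e hRE
    change v ∈ g.Pa (g.kd e) e
    rw [(g.okk hRE).av, g.kd_eq he]
    exact hv
  · intro h e he hv
    change v ∈ g.Pa (g.kd e) e at hv
    rw [(g.okk he).av] at hv
    exact h ⟨_, e, g.kd_mem he, hv⟩

/-- Tokens. -/
abbrev Gad.Tk : Type u := g.gs.Tok

/-- Ports. -/
abbrev Gad.Pt : Type u := g.gs.Port

/-- The token of a vertex outside the gadgets. -/
def Gad.tv (v : G) (h : ¬ g.W v) : g.Tk := Sum.inl ⟨v, g.mem_V'.2 h⟩

theorem Gad.vx_tv (v : G) (h : ¬ g.W v) (b : Bool) : g.gs.vx (g.tv v h, b) = v := by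
  cases b <;> rfl

theorem GadOK.i_mem {L : Finset G} {e : G × G} {Vs : Finset G} {i o : G} {Pa Pn : List G}
    (h : GadOK L e Vs i o Pa Pn) : i ∈ Vs := by
  rw [← h.av]
  exact List.mem_of_mem_head? (by rw [h.ah]; rfl)

theorem GadOK.o_mem {L : Finset G} {e : G × G} {Vs : Finset G} {i o : G} {Pa Pn : List G}
    (h : GadOK L e Vs i o Pa Pn) : o ∈ Vs := by
  rw [← h.av]
  exact List.mem_of_getLast? h.al

/-- The gadget vertex of a gadget port. -/
theorem Gad.vx_inr (e : {e : G × G // e ∈ g.RE}) (b : Bool) :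
    g.gs.vx (Sum.inr e, b) ∈ g.Vs (g.kd e.1) e.1 := by
  cases b
  · exact GadOK.o_mem (g.okk e.2)
  · exact GadOK.i_mem (g.okk e.2)

theorem Gad.W_of_vs {e : G × G} (he : e ∈ g.RE) {v : G} (hv : v ∈ g.Vs (g.kd e) e) : g.W v :=
  ⟨_, e, g.kd_mem he, hv⟩

/-- Ports with the same vertex have the same token. -/
theorem Gad.tok_eq {p q : g.Pt} (h : g.gs.vx p = g.gs.vx q) : p.1 = q.1 := by
  obtain ⟨t, b⟩ := p
  obtain ⟨t', b'⟩ := q
  rcases t with v | e <;> rcases t' with v' | e'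
  · have h1 : g.gs.vx (Sum.inl v, b) = v.1 := by cases b <;> rfl
    have h2 : g.gs.vx (Sum.inl v', b') = v'.1 := by cases b' <;> rfl
    rw [h1, h2] at h
    exact congrArg Sum.inl (Subtype.ext h)
  · exfalso
    have h1 : g.gs.vx (Sum.inl v, b) = v.1 := by cases b <;> rfl
    have h2 := g.W_of_vs e'.2 (g.vx_inr e' b')
    rw [← h, h1] at h2
    exact g.mem_V'.1 v.2 h2
  · exfalso
    have h1 : g.gs.vx (Sum.inl v', b') = v'.1 := by cases b' <;> rfl
    have h2 := g.W_of_vs e.2 (g.vx_inr e b)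
    rw [h, h1] at h2
    exact g.mem_V'.1 v'.2 h2
  · have h1 := g.vx_inr e b
    have h2 := g.vx_inr e' b'
    rw [← h] at h2
    exact congrArg Sum.inr (Subtype.ext (g.vs_inj e.2 e'.2 h1 h2))

theorem Gad.RR_vx (t : g.Tk) : g.RR (g.gs.vx (t, false)) := by
  rcases t with v | e
  · exact Or.inl (g.mem_V'.1 v.2)
  · exact Or.inr ⟨_, e.1, g.kd_mem e.2, rfl⟩

theorem Gad.CC_vx (t : g.Tk) : g.CC (g.gs.vx (t, true)) := by
  rcases t with v | e
  · exact Or.inl (g.mem_V'.1 v.2)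
  · exact Or.inr ⟨_, e.1, g.kd_mem e.2, rfl⟩

theorem Gad.exists_of_CC {y : G} (h : g.CC y) : ∃ t : g.Tk, g.gs.vx (t, true) = y := by
  rcases h with h | ⟨τ, e, he, rfl⟩
  · exact ⟨g.tv y h, rfl⟩
  · refine ⟨Sum.inr ⟨e, ⟨τ, he⟩⟩, ?_⟩
    change g.i (g.kd e) e = g.i τ e
    rw [g.kd_eq he]

theorem Gad.vx_W_iff (t : g.Tk) (b : Bool) : ¬ g.W (g.gs.vx (t, b)) ↔ ∃ v, t = Sum.inl v := by
  rcases t with v | e
  · have h1 : g.gs.vx (Sum.inl v, b) = v.1 := by cases b <;> rfl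
    rw [h1]
    exact ⟨fun _ => ⟨v, rfl⟩, fun _ => g.mem_V'.1 v.2⟩
  · constructor
    · intro h; exact absurd (g.W_of_vs e.2 (g.vx_inr e b)) h
    · rintro ⟨v, hv⟩; cases hv

/-- The permutation of the tokens given by a perfect matching of rows and columns. -/
theorem Gad.exists_perm {a : G → G → Prop} (F : G → G)
    (h1 : ∀ x, g.RR x → g.CC (F x) ∧ a x (F x))
    (h2 : ∀ x x', g.RR x → g.RR x' → F x = F x' → x = x') :
    ∃ Fp : Equiv.Perm g.Tk, ∀ t, a (g.gs.vx (t, false)) (g.gs.vx (Fp t, true)) := by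
  choose f hf using fun t : g.Tk => g.exists_of_CC (h1 _ (g.RR_vx t)).1
  have hinj : Function.Injective f := by
    intro t t' htt
    have e1 : F (g.gs.vx (t, false)) = F (g.gs.vx (t', false)) := by
      rw [← hf t, ← hf t', htt]
    exact g.tok_eq (h2 _ _ (g.RR_vx t) (g.RR_vx t') e1)
  haveI : Finite g.Tk := by
    unfold Gad.Tk GS.Tok
    infer_instance
  have hbij : Function.Bijective f := Finite.injective_iff_bijective.1 hinj
  refine ⟨Equiv.ofBijective f hbij, fun t => ?_⟩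
  rw [Equiv.ofBijective_apply, hf t]
  exact (h1 _ (g.RR_vx t)).2

end

end Pool.Agent.Lib.MP_688fd0_co.TF
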