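import Pool.Agent.Lib.MP_688fd0_co.TF.H57.Brg1

/-!
# Theorem F (port of TE), bridge part 2: levels along the permutation, the star map, cycles and classes
-/

namespace Pool.Agent.Lib.MP_688fd0_co.TF

open Pool.Agent.Lib.MP_688fd0_co.TE

open Pool.Agent.Lib.MP_688fd0_co

universe u

section

variable {G : Type u} [Group G] [Fintype G] [DecidableEq G] {c : Ctx G} {N : ℕ} (g : Gad c N)
variable {m : ℕ}

/-- The arcs. -/
def Gad.arc (lv : G → ZMod m) (x y : G) : Prop := 0 < g.aB lv x y + g.aC lv x y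

theorem Gad.arc_cases {lv : G → ZMod m} {x y : G} (h : g.arc lv x y) :
    (x⁻¹ * y ∈ c.B ∧ ¬ (g.W x ∧ g.W y) ∧ (lv y = lv x + 1 ∨ lv y = lv x + 2)) ∨
    (¬ g.W x ∧ ¬ g.W y ∧ x⁻¹ * y ∈ c.C ∧ lv x = 0 ∧ lv y = 1) := by
  by_contra hn
  push Not at hn
  unfold Gad.arc at h
  have h1 : g.aB lv x y = 0 := by
    unfold Gad.aB
    rw [ind_not, mul_zero]
    rintro ⟨-, -, a1, a2, a3⟩
    have a4 : ¬ (g.W x ∧ g.W y) → (lv y ≠ lv x + 1 ∧ lv y ≠ lv x + 2) := by
      intro a5
      apply hn.1 a1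
      intro hx hy
      exact a5 ⟨hx, hy⟩
    rcases a3 with a3 | a3
    · exact (a4 a2).1 a3
    · exact (a4 a2).2 a3
  have h2 : g.aC lv x y = 0 := by
    unfold Gad.aC
    rw [ind_not, mul_zero]
    rintro ⟨a1, a2, a3, a4, a5⟩
    exact hn.2 a1 a2 a3 a4 a5
  rw [h1, h2, add_zero] at h
  exact lt_irrefl _ h

theorem steps_mem_closure {L : Finset G} (l : List G) :
    ∀ a, steps L (a :: l) → ∀ o, (a :: l).getLast? = some o →
      a⁻¹ * o ∈ Subgroup.closure (L : Set G) := by
  induction l with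
  | nil =>
    intro a _ o ho
    rw [List.getLast?_singleton] at ho
    rw [← Option.some_injective _ ho, inv_mul_cancel]
    exact Subgroup.one_mem _
  | cons b t ih =>
    intro a h o ho
    unfold steps at h
    rw [List.isChain_cons_cons] at h
    rw [List.getLast?_cons_cons] at ho
    have h1 := ih b h.2 o ho
    have h2 : a⁻¹ * o = (a⁻¹ * b) * (b⁻¹ * o) := by group
    rw [h2]
    exact Subgroup.mul_mem _ (Subgroup.subset_closure h.1) h1

/-- Kind 0 gadgets lie in one cell. -/
theorem Gad.cell0 {e : G × G} (he : e ∈ g.res.E false) :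
    (g.i false e)⁻¹ * g.o false e ∈ c.H := by
  have h := g.ok false e he
  have h1 : g.Pa false e ≠ [] := by
    intro h2
    have h3 := h.ah
    rw [h2] at h3
    simp at h3
  obtain ⟨a, t, h2⟩ := List.exists_cons_of_ne_nil h1
  have h3 := h.ah
  have h4 := h.al
  have h5 := h.as
  rw [h2] at h3 h4 h5
  rw [List.head?_cons] at h3
  rw [← Option.some_injective _ h3]
  exact steps_mem_closure t a h5 _ h4

/-- The levels of the two ports of a token agree. -/
theorem Gad.lev_port {lv : G → ZMod m} (io : ∀ τ, ∀ e ∈ g.res.E τ, lv (g.i τ e) = lv (g.o τ e))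
    (t : g.Tk) : lv (g.gs.vx (t, true)) = lv (g.gs.vx (t, false)) := by
  rcases t with v | e
  · rfl
  · exact io _ _ (g.kd_mem e.2)

/-- The arc of the token `t` is a B-arc. -/
def Gad.ba (Fp : Equiv.Perm g.Tk) (t : g.Tk) : Prop :=
  (g.gs.vx (t, false))⁻¹ * g.gs.vx (Fp t, true) ∈ c.B

theorem Gad.lvI {lv : G → ZMod m} (io : ∀ τ, ∀ e ∈ g.res.E τ, lv (g.i τ e) = lv (g.o τ e))
    (one : ∀ e ∈ g.res.E true, lv (g.i true e) = 0) (Fp : Equiv.Perm g.Tk)
    (hF : ∀ t, g.arc lv (g.gs.vx (t, false)) (g.gs.vx (Fp t, true))) :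
    Lv Fp m (fun t => lv (g.gs.vx (t, false))) (fun t => ∃ v, t = Sum.inl v)
      (fun t => (QuotientGroup.mk (g.gs.vx (t, true)) : G ⧸ c.H))
      (fun t => (QuotientGroup.mk (g.gs.vx (t, false)) : G ⧸ c.H)) (g.ba Fp) := by
  constructor
  · intro t
    rw [← g.lev_port io (Fp t)]
    rcases g.arc_cases (hF t) with h | h
    · exact h.2.2
    · left
      rw [h.2.2.2.1, h.2.2.2.2, zero_add]
  · intro t ht
    rcases t with v | e
    · rfl
    · have h1 : g.kd e.1 = false := by
        rcases ht with ht | ⟨v, hv⟩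
        · by_contra hk
          rw [Bool.not_eq_false] at hk
          apply ht
          rw [← g.lev_port io]
          change lv (g.i (g.kd e.1) e.1) = 0
          rw [hk]
          apply one
          have := g.kd_mem e.2
          rwa [hk] at this
        · cases hv
      have h2 := g.kd_mem e.2
      rw [h1] at h2
      rw [QuotientGroup.eq]
      change (g.i (g.kd e.1) e.1)⁻¹ * (g.o (g.kd e.1) e.1) ∈ c.H
      rw [h1]
      exact g.cell0 h2
  · intro t
    rcases g.arc_cases (hF t) with h | h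
    · exact Or.inl h.1
    · refine Or.inr ⟨h.2.2.2.1, ?_, ?_, ?_⟩
      · exact (g.vx_W_iff t false).1 h.1
      · exact (g.vx_W_iff _ true).1 h.2.1
      · rw [← g.lev_port io (Fp t)]
        exact h.2.2.2.2
  · intro t ht
    rw [QuotientGroup.eq]
    exact Subgroup.subset_closure ht
  · intro t
    have h1 : ¬ (g.W (g.gs.vx (t, false)) ∧ g.W (g.gs.vx (Fp t, true))) := by
      rcases g.arc_cases (hF t) with h | h
      · exact h.2.1
      · exact fun h1 => h.1 h1.1
    by_cases h2 : g.W (g.gs.vx (t, false))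
    · right
      exact (g.vx_W_iff _ true).1 (fun h3 => h1 ⟨h2, h3⟩)
    · left
      exact (g.vx_W_iff t false).1 h2

/-- The arcs are edges of the Cayley graph. -/
theorem Gad.arc_adj {lv : G → ZMod m} {x y : G} (h : g.arc lv x y) : c.Ga.Adj x y := by
  rcases g.arc_cases h with h | h
  · exact c.adj false h.1
  · exact c.adj true (Finset.mem_union_right _ h.2.2.1)

open Classical in
/-- The star port of a token. -/
noncomputable def Gad.sp (Fp : Equiv.Perm g.Tk) (t : g.Tk) : g.Pt :=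
  if g.ba Fp t then (t, false) else (t, true)

theorem Gad.sp_fst (Fp : Equiv.Perm g.Tk) (t : g.Tk) : (g.sp Fp t).1 = t := by
  unfold Gad.sp
  split_ifs <;> rfl

open Classical in
/-- The star map. -/
noncomputable def Gad.sv (Fp : Equiv.Perm g.Tk) (v : G) : G :=
  if h : ¬ g.W v then g.gs.vx (edgB Fp (g.sp Fp (g.tv v h))) else v

theorem Gad.sv_eq (Fp : Equiv.Perm g.Tk) (v : G) (h : ¬ g.W v) :
    g.sv Fp v = g.gs.vx (edgB Fp (g.sp Fp (g.tv v h))) := dif_pos h

theorem Gad.vx_sp (Fp : Equiv.Perm g.Tk) (v : G) (h : ¬ g.W v) :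
    g.gs.vx (g.sp Fp (g.tv v h)) = v := by
  have h1 : g.sp Fp (g.tv v h) = (g.tv v h, (g.sp Fp (g.tv v h)).2) :=
    Prod.ext (g.sp_fst Fp _) rfl
  rw [h1]
  exact g.vx_tv v h _

theorem Gad.star (hm : 8 ≤ m) {lv : G → ZMod m}
    (io : ∀ τ, ∀ e ∈ g.res.E τ, lv (g.i τ e) = lv (g.o τ e))
    (one : ∀ e ∈ g.res.E true, lv (g.i true e) = 0) (Fp : Equiv.Perm g.Tk)
    (hF : ∀ t, g.arc lv (g.gs.vx (t, false)) (g.gs.vx (Fp t, true))) :
    g.Star (g.sv Fp) := by
  constructor
  · intro v hv
    rw [g.sv_eq Fp v hv]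
    by_cases hb : g.ba Fp (g.tv v hv)
    · have h1 : g.sp Fp (g.tv v hv) = (g.tv v hv, false) := if_pos hb
      rw [h1]
      exact hb
    · have h1 : g.sp Fp (g.tv v hv) = (g.tv v hv, true) := if_neg hb
      rw [h1]
      rcases star6 hm (g.lvI io one Fp hF) (g.tv v hv) with h2 | h2
      · exact absurd h2 hb
      · unfold Gad.ba at h2
        rw [Equiv.apply_symm_apply, g.vx_tv] at h2
        have h3 := c.hB.inv _ h2
        rw [mul_inv_rev, inv_inv] at h3
        exact h3
  · intro w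
    classical
    by_cases hw : ∃ p : g.Pt, g.gs.vx p = w
    · obtain ⟨p, hp⟩ := hw
      -- the star port of `v` is the partner of a port of the token of `p`
      have hsub : {v | ¬ g.W v ∧ g.sv Fp v = w} ⊆
          {g.gs.vx (edgB Fp (p.1, false)), g.gs.vx (edgB Fp (p.1, true))} := by
        rintro v ⟨hv, hvw⟩
        rw [g.sv_eq Fp v hv, ← hp] at hvw
        have h1 := g.tok_eq hvw
        have h2 : g.gs.vx (edgB Fp (edgB Fp (g.sp Fp (g.tv v hv)))) = v := by
          rw [(edgB_ffi Fp).inv]; exact g.vx_sp Fp v hv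
        have h3 : edgB Fp (g.sp Fp (g.tv v hv)) =
            (p.1, (edgB Fp (g.sp Fp (g.tv v hv))).2) := Prod.ext h1 rfl
        rw [h3] at h2
        generalize (edgB Fp (g.sp Fp (g.tv v hv))).2 = b at h2
        cases b
        · exact Or.inl h2.symm
        · exact Or.inr h2.symm
      refine le_trans (Set.ncard_le_ncard hsub (Set.toFinite _)) ?_
      refine le_trans (Set.ncard_insert_le _ _) ?_
      rw [Set.ncard_singleton]
    · have hsub : {v | ¬ g.W v ∧ g.sv Fp v = w} = ∅ := by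
        ext v
        simp only [Set.mem_ofPred_eq, Set.mem_empty_iff_false, iff_false, not_and]
        intro hv hvw
        rw [g.sv_eq Fp v hv] at hvw
        exact hw ⟨_, hvw⟩
      rw [hsub, Set.ncard_empty]
      omega

end

section rel

variable {T : Type*}

theorem rel_next (F : Equiv.Perm T) (t : T) (b b' : Bool) :
    Rel2 (edgB F) flipB (t, b) (F t, b') := by
  have h1 : Rel2 (edgB F) flipB (t, false) (F t, true) := Rel2.phi _ _ (t, false)
  have h2 : ∀ (s : T) (b b' : Bool), Rel2 (edgB F) flipB (s, b) (s, b') := by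
    intro s b b'
    cases b <;> cases b'
    · exact Rel2.refl _ _ _
    · exact Rel2.mu _ _ (s, false)
    · exact Rel2.mu _ _ (s, true)
    · exact Rel2.refl _ _ _
  exact ((h2 t b false).trans h1).trans (h2 _ true b')

theorem rel_port {Φ : T × Bool → T × Bool} (s : T) (b b' : Bool) :
    Rel2 Φ flipB (s, b) (s, b') := by
  cases b <;> cases b'
  · exact Rel2.refl _ _ _
  · exact Rel2.mu _ _ (s, false)
  · exact Rel2.mu _ _ (s, true)
  · exact Rel2.refl _ _ _

theorem rel_of_sameCycle (F : Equiv.Perm T) {t t' : T} (h : F.SameCycle t t') (b b' : Bool) :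
    Rel2 (edgB F) flipB (t, b) (t', b') := by
  obtain ⟨i, hi⟩ := h
  have key : ∀ i : ℤ, Rel2 (edgB F) flipB (t, b) ((F ^ i) t, b) := by
    intro i
    induction i with
    | zero => exact Rel2.refl _ _ _
    | succ n ih =>
      have h1 : (F ^ ((n : ℤ) + 1)) t = F ((F ^ (n : ℤ)) t) := by
        rw [add_comm, zpow_add, zpow_one, Equiv.Perm.mul_apply]
      rw [h1]
      exact ih.trans (rel_next F _ _ _)
    | pred n ih =>
      have h1 : (F ^ (-(n : ℤ))) t = F ((F ^ (-(n : ℤ) - 1)) t) := by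
        have : (-(n : ℤ)) = 1 + (-(n : ℤ) - 1) := by ring
        conv_lhs => rw [this]
        rw [zpow_add, zpow_one, Equiv.Perm.mul_apply]
      rw [h1] at ih
      exact ih.trans (rel_next F _ _ _).symm
  rw [← hi]
  exact (key i).trans (rel_port _ _ _)

end rel

end Pool.Agent.Lib.MP_688fd0_co.TF
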