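import Pool.Agent.Lib.MP_688fd0_co.TF.H57.Brg2

/-!
# Theorem F (port of TE), bridge part 3: R-links as links
-/

namespace Pool.Agent.Lib.MP_688fd0_co.TF

open Pool.Agent.Lib.MP_688fd0_co.TE

open Pool.Agent.Lib.MP_688fd0_co

universe u

section lists

variable {V : Type*}

theorem flat_chain {Γ : SimpleGraph V} (l : List (V × V)) : ∀ x y : V, l ≠ [] →
    (∀ e ∈ l, Γ.Adj e.1 e.2) → l.IsChain (fun e e' => Γ.Adj e.2 e'.1) →
    (∀ e, l.head? = some e → Γ.Adj x e.1) → (∀ e, l.getLast? = some e → Γ.Adj e.2 y) →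
    (x :: (flat l ++ [y])).IsChain Γ.Adj := by
  induction l with
  | nil => intro x y h; exact absurd rfl h
  | cons e t ih =>
    intro x y _ h1 h2 h3 h4
    rw [flat_cons]
    cases t with
    | nil =>
      rw [flat_nil]
      simp only [List.cons_append, List.nil_append, List.isChain_cons_cons,
        List.isChain_singleton, and_true]
      exact ⟨h3 e rfl, h1 e (by simp), h4 e rfl⟩
    | cons e' t' =>
      rw [List.isChain_cons_cons] at h2
      have h5 := ih e.2 y (by simp) (fun e'' he => h1 e'' (List.mem_cons_of_mem _ he)) h2.2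
        (by
          intro e'' he
          rw [List.head?_cons] at he
          rw [← Option.some_injective _ he]
          exact h2.1)
        (by
          intro e'' he
          apply h4
          rw [List.getLast?_cons_cons]
          exact he)
      rw [List.cons_append, List.cons_append, List.isChain_cons_cons, List.isChain_cons_cons]
      exact ⟨h3 e rfl, h1 e (by simp), h5⟩

theorem flat_nodup {l : List (V × V)} (h1 : ∀ e ∈ l, e.1 ≠ e.2)
    (h2 : l.Pairwise (fun e e' => e.1 ≠ e'.1 ∧ e.1 ≠ e'.2 ∧ e.2 ≠ e'.1 ∧ e.2 ≠ e'.2)) :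
    (flat l).Nodup := by
  unfold flat
  rw [List.nodup_flatMap]
  refine ⟨fun e he => ?_, ?_⟩
  · simpa using h1 e he
  · refine h2.imp ?_
    intro e e' h v hv hv'
    simp only [List.mem_cons, List.not_mem_nil, or_false] at hv hv'
    rcases hv with rfl | rfl <;> rcases hv' with h3 | h3
    · exact h.1 h3
    · exact h.2.1 h3
    · exact h.2.2.1 h3
    · exact h.2.2.2 h3

end lists

section

variable {G : Type u} [Group G] [Fintype G] [DecidableEq G] {c : Ctx G} {N : ℕ} (g : Gad c N)

theorem Gad.re_ne {e : G × G} (he : e ∈ g.RE) : e.1 ≠ e.2 := by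
  intro h1
  have h2 := g.res.lett _ e (g.kd_mem he)
  rw [h1, inv_mul_cancel] at h2
  exact c.lt_ne _ h2 rfl

/-- R-edges with a common vertex are equal. -/
theorem Gad.re_inj {e e' : G × G} (he : e ∈ g.RE) (he' : e' ∈ g.RE) {v : G}
    (h : v = e.1 ∨ v = e.2) (h' : v = e'.1 ∨ v = e'.2) : e = e' := by
  by_contra hne
  have h1 := g.res.disj _ _ e e' (g.kd_mem he) (g.kd_mem he')
    (by intro h2; exact hne (congrArg Prod.snd h2))
  rcases h with rfl | rfl <;> rcases h' with h2 | h2
  · exact h1.1 h2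
  · exact h1.2.1 h2
  · exact h1.2.2.1 h2
  · exact h1.2.2.2 h2

/-- An R-link with positive probability is a link. -/
theorem Gad.lk_of_Rl {τ : Bool} {x y : G} (hxy : x ≠ y) (ha : c.adm τ true 9 x y)
    {z : Fin (3 * c.k + 1) → G × G} (hz : g.res.Rl τ x y z ≠ 0) :
    Lk c.Ga g.RE x y (List.ofFn z) := by
  obtain ⟨h1, h2, h3, h4, h5, h6⟩ := g.res.supp τ x y hxy ha z hz
  have hk : 0 < 3 * c.k + 1 := by omega
  have hRE : ∀ j, z j ∈ g.RE := fun j => ⟨τ, h1 j⟩
  refine ⟨?_, ?_, ?_⟩
  · apply flat_chain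
    · rw [Ne, List.ofFn_eq_nil_iff]
      omega
    · rw [List.forall_mem_ofFn_iff]
      intro j
      exact c.adj τ (g.res.lett τ _ (h1 j))
    · rw [List.isChain_ofFn]
      intro i hi
      exact c.adj τ (h5 ⟨i, by omega⟩ ⟨i + 1, hi⟩ rfl)
    · intro e he
      rw [List.head?_eq_getElem?, List.getElem?_eq_getElem (by rw [List.length_ofFn]; exact hk),
        List.getElem_ofFn] at he
      rw [← Option.some_injective _ he]
      exact c.adj τ (h4 ⟨0, hk⟩ rfl)
    · intro e he
      rw [List.getLast?_eq_getElem?, List.getElem?_eq_getElem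
        (by rw [List.length_ofFn]; omega), List.getElem_ofFn] at he
      rw [← Option.some_injective _ he]
      refine c.adj τ (h6 _ ?_)
      simp only [List.length_ofFn]
      omega
  · apply flat_nodup
    · rw [List.forall_mem_ofFn_iff]
      intro j
      exact g.re_ne (hRE j)
    · rw [List.pairwise_ofFn]
      intro i j hij
      refine g.res.disj τ τ _ _ (h1 i) (h1 j) ?_
      intro h7
      have h8 := h2 (congrArg Prod.snd h7)
      exact absurd h8 (ne_of_lt hij)
  · rw [List.forall_mem_ofFn_iff]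
    intro j
    exact Or.inl (hRE j)

/-- Pairs joined by one letter are admissible. -/
theorem Ctx.adm_one (c : Ctx G) {τ : Bool} {x y : G} (h : x⁻¹ * y ∈ Lt c.B c.C τ) :
    c.adm τ true 9 x y := by
  unfold Ctx.adm
  rw [if_pos rfl]
  exact ⟨1, by decide, by norm_num, [x⁻¹ * y], rfl, by simpa using h, by simp⟩

theorem Ctx.b_lt (c : Ctx G) {τ : Bool} {s : G} (h : s ∈ c.B) : s ∈ Lt c.B c.C τ := by
  cases τ
  · exact h
  · exact Finset.mem_union_left _ h

/-- The pair `x*`, `y*` is admissible. -/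
theorem Ctx.adm_star (c : Ctx G) {τ : Bool} {x y x' y' : G} (h : x⁻¹ * y ∈ Lt c.B c.C τ)
    (hx : x⁻¹ * x' ∈ c.B) (hy : y⁻¹ * y' ∈ c.B) : c.adm τ true 9 x' y' := by
  unfold Ctx.adm
  rw [if_pos rfl]
  refine ⟨3, by decide, by norm_num, [x'⁻¹ * x, x⁻¹ * y, y⁻¹ * y'], rfl, ?_, ?_⟩
  · intro s hs
    simp only [List.mem_cons, List.not_mem_nil, or_false] at hs
    rcases hs with rfl | rfl | rfl
    · have h3 := c.hB.inv _ hx
      rw [mul_inv_rev, inv_inv] at h3
      exact c.b_lt h3
    · exact h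
    · exact c.b_lt hy
  · simp only [List.prod_cons, List.prod_nil, mul_one]
    group

end

end Pool.Agent.Lib.MP_688fd0_co.TF
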