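import Pool.Agent.Lib.MP_688fd0_co.TF.H57.Brg3

/-!
# Theorem F (port of TE), bridge part 4: the invariants and one round
-/

namespace Pool.Agent.Lib.MP_688fd0_co.TF

open Pool.Agent.Lib.MP_688fd0_co.TE

open Pool.Agent.Lib.MP_688fd0_co

universe u

section

variable {G : Type u} [Group G] [Fintype G] [DecidableEq G] {c : Ctx G} {N : ℕ} (g : Gad c N)

open Classical in
/-- The vertices of the cell of `v` and of the cycle of `v`. -/
noncomputable def Gad.cyc (Fp : Equiv.Perm g.Tk) (v : G) : Finset G :=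
  Finset.univ.filter (fun w => ∃ (hv : ¬ g.W v) (hw : ¬ g.W w), v⁻¹ * w ∈ c.H ∧
    Fp.SameCycle (g.tv v hv) (g.tv w hw))

theorem Gad.mem_cyc {Fp : Equiv.Perm g.Tk} {v w : G} : w ∈ g.cyc Fp v ↔
    ∃ (hv : ¬ g.W v) (hw : ¬ g.W w), v⁻¹ * w ∈ c.H ∧
      Fp.SameCycle (g.tv v hv) (g.tv w hw) := by
  classical
  unfold Gad.cyc
  simp only [Finset.mem_filter, Finset.mem_univ, true_and]

/-- (6.2). -/
theorem Gad.cyc_card {m : ℕ} (hm : 8 ≤ m) {lv : G → ZMod m}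
    (io : ∀ τ, ∀ e ∈ g.res.E τ, lv (g.i τ e) = lv (g.o τ e))
    (one : ∀ e ∈ g.res.E true, lv (g.i true e) = 0) (Fp : Equiv.Perm g.Tk)
    (hF : ∀ t, g.arc lv (g.gs.vx (t, false)) (g.gs.vx (Fp t, true))) {v : G} (hv : ¬ g.W v) :
    m ≤ 8 * (g.cyc Fp v).card := by
  obtain ⟨s, hs, hs'⟩ := cyc6 hm (g.lvI io one Fp hF) (g.tv v hv) ⟨_, rfl⟩
  have h1 : s.card ≤ (g.cyc Fp v).card := by
    apply Finset.card_le_card_of_injOn (fun t => g.gs.vx (t, true))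
    · intro t ht
      obtain ⟨⟨w, rfl⟩, h2, h3⟩ := hs' t ht
      have hw : ¬ g.W w.1 := g.mem_V'.1 w.2
      have h4 : (QuotientGroup.mk w.1 : G ⧸ c.H) = QuotientGroup.mk v := h2
      rw [QuotientGroup.eq] at h4
      have h5 := c.H.inv_mem h4
      rw [mul_inv_rev, inv_inv] at h5
      exact g.mem_cyc.2 ⟨hv, hw, h5, h3⟩
    · intro t _ t' _ h
      exact g.tok_eq h
  omega

/-- Invariants after `r` rounds. -/
structure Gad.Sta (Fp : Equiv.Perm g.Tk) (r : ℕ) (Φ : g.Pt → g.Pt)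
    (seg : g.Pt → List (G × G)) (Un : G → Prop) (UE : G × G → Prop) : Prop where
  st : St c.Ga g.RE g.gs.vx Φ seg
  mono : ∀ p q, Rel2 (edgB Fp) flipB p q → Rel2 Φ flipB p q
  fr : ∀ v (hv : ¬ g.W v), ¬ Un v →
    Φ (g.sp Fp (g.tv v hv)) = edgB Fp (g.sp Fp (g.tv v hv))
  us : ∀ p v, v ∈ flat (seg p) → ∃ e ∈ g.RE, UE e ∧ (v = e.1 ∨ v = e.2)
  i1 : ∀ τ x y, x ≠ y → c.adm τ true 9 x y →
    TE.Pr (g.res.Rl τ x y) (fun z => ∃ j, UE (z j)) ≤ r * (1 / c.X ^ 150)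
  i2 : c.Light 4 Un (r * (1 / c.X ^ 900))
  i3 : ∀ v, ¬ g.W v → 1000 * c.k * Set.ncard {w | w ∈ g.cyc Fp v ∧ Un w} ≤
    r * (g.cyc Fp v).card

theorem pr_or {Ω : Type*} [Fintype Ω] {μ : Ω → ℝ} (h : IsPr μ) (E F D : Ω → Prop)
    (hE : ∀ ω, D ω → E ω ∨ F ω) : Pr μ D ≤ Pr μ E + Pr μ F := by
  unfold Pr
  rw [← Finset.sum_add_distrib]
  apply Finset.sum_le_sum
  intro ω _
  rw [← mul_add]
  apply mul_le_mul_of_nonneg_left _ (h.nn ω)
  by_cases hD : D ω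
  · rw [ind_of hD]
    rcases hE ω hD with h1 | h1
    · rw [ind_of h1]
      have := ind_nonneg (F ω)
      linarith
    · rw [ind_of h1]
      have := ind_nonneg (E ω)
      linarith
  · rw [ind_not hD]
    have := ind_nonneg (E ω)
    have := ind_nonneg (F ω)
    linarith

/-- One round. -/
theorem Gad.rnd (hPKS : ∀ N M, c.PK N M → SS M) (hRND : RNDF_S.{u}) (hN : 6 ≤ N) {m : ℕ}
    (hm : c.mOK m) (hm8 : 8 ≤ m) {lv : G → ZMod m}
    (io : ∀ τ, ∀ e ∈ g.res.E τ, lv (g.i τ e) = lv (g.o τ e))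
    (one : ∀ e ∈ g.res.E true, lv (g.i true e) = 0) (Fp : Equiv.Perm g.Tk)
    (hF : ∀ t, g.arc lv (g.gs.vx (t, false)) (g.gs.vx (Fp t, true)))
    {r : ℕ} {Φ : g.Pt → g.Pt} {seg : g.Pt → List (G × G)} {Un : G → Prop} {UE : G × G → Prop}
    (h : g.Sta Fp r Φ seg Un UE) (hr : (r : ℝ) * (1 / c.X ^ 150) ≤ 1 / c.X ^ 100) (τ : Bool)
    (κ : Type u) [Fintype κ] [DecidableEq κ] (π : κ → G → G → ℝ) (π1 : ℝ)
    (hκ : Fintype.card κ ≤ Fintype.card G ^ 2) (nn : ∀ p x y, 0 ≤ π p x y)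
    (tot : ∀ p, ∑ x, ∑ y, π p x y = 1)
    (supp : ∀ p x y, π p x y ≠ 0 → ∃ (hx : ¬ g.W x) (hy : ¬ g.W y), ¬ Un x ∧ ¬ Un y ∧
      x⁻¹ * y ∈ Lt c.B c.C τ ∧ ¬ Rel2 Φ flipB (g.sp Fp (g.tv x hx)) (g.sp Fp (g.tv y hy)))
    (row : ∀ x, ∑ p, ∑ y, π p x y ≤ π1) (col : ∀ y, ∑ p, ∑ x, π p x y ≤ π1)
    (small : π1 ≤ if τ then 1 / c.X ^ 100000 else 1 / c.X ^ 990) :
    ∃ (Φ' : g.Pt → g.Pt) (seg' : g.Pt → List (G × G)) (Un' : G → Prop) (UE' : G × G → Prop),
      g.Sta Fp (r + 1) Φ' seg' Un' UE' ∧ (∀ p q, Rel2 Φ flipB p q → Rel2 Φ' flipB p q) ∧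
      ∀ p : κ, ∃ x y, π p x y ≠ 0 ∧ ∃ (hx : ¬ g.W x) (hy : ¬ g.W y),
        Rel2 Φ' flipB (g.sp Fp (g.tv x hx)) (g.sp Fp (g.tv y hy)) := by
  classical
  have hstar := g.star hm8 io one Fp hF
  have hcomp : ∀ x (hx : ¬ g.W x), ¬ Un x →
      Rel2 Φ flipB (g.sp Fp (g.tv x hx)) (edgB Fp (g.sp Fp (g.tv x hx))) := by
    intro x hx hux
    rw [← h.fr x hx hux]
    exact Rel2.phi _ _ _
  have hPi : g.PiOK τ (g.sv Fp) π π1 := by
    refine ⟨nn, tot, ?_, row, col, small⟩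
    intro p x y hp
    obtain ⟨hx, hy, hux, huy, hl, hrel⟩ := supp p x y hp
    refine ⟨hx, hy, ?_, ?_, hl⟩
    · rintro rfl
      exact hrel (Rel2.refl _ _ _)
    · intro hs
      rw [g.sv_eq Fp x hx, g.sv_eq Fp y hy] at hs
      have h1 := g.tok_eq hs
      apply hrel
      refine ((hcomp x hx hux).trans ?_).trans (hcomp y hy huy).symm
      have h2 : edgB Fp (g.sp Fp (g.tv x hx)) = ((edgB Fp (g.sp Fp (g.tv y hy))).1,
          (edgB Fp (g.sp Fp (g.tv x hx))).2) := Prod.ext h1 rfl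
      rw [h2]
      exact rel_port _ _ _
  obtain ⟨o, Vp, Ep, hR⟩ := hRND G c N g m τ (g.sv Fp) UE κ π π1 {v : G // ¬ g.W v}
    (fun v => g.cyc Fp v.1) hN hm hstar (fun τ' x y hxy ha => (h.i1 τ' x y hxy ha).trans hr) hκ
    (by
      have h1 : Fintype.card {v : G // ¬ g.W v} ≤ Fintype.card G := Fintype.card_subtype_le _
      have h2 : 0 < Fintype.card G := Fintype.card_pos
      nlinarith)
    (fun v => g.cyc_card hm8 io one Fp hF v.2) hPi
  choose hx hy hux huy hlet hrel using fun p => supp p _ _ (hR.pi p)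
  let op : κ → Opt g.Pt G := fun p => ⟨g.sp Fp (g.tv _ (hx p)), g.sp Fp (g.tv _ (hy p)),
    List.ofFn (o p).2.1, List.ofFn (o p).2.2⟩
  have hPa : ∀ p, Φ (op p).a = edgB Fp (op p).a := fun p => h.fr _ (hx p) (hux p)
  have hPb : ∀ p, Φ (op p).b = edgB Fp (op p).b := fun p => h.fr _ (hy p) (huy p)
  have hva : ∀ p, g.gs.vx (op p).a = (o p).1.1 := fun p => g.vx_sp Fp _ (hx p)
  have hvb : ∀ p, g.gs.vx (op p).b = (o p).1.2 := fun p => g.vx_sp Fp _ (hy p)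
  have hva' : ∀ p, g.gs.vx (Φ (op p).a) = g.sv Fp (o p).1.1 := fun p => by
    rw [hPa, g.sv_eq Fp _ (hx p)]
  have hvb' : ∀ p, g.gs.vx (Φ (op p).b) = g.sv Fp (o p).1.2 := fun p => by
    rw [hPb, g.sv_eq Fp _ (hy p)]
  have hports : ∀ p, ∀ q ∈ (op p).ports Φ, g.gs.vx q ∈ touch4 (g.sv Fp) (o p).1 := by
    intro p q hq
    unfold touch4
    rcases hq with rfl | rfl | rfl | rfl
    · rw [hva]; simp
    · rw [hvb]; simp
    · rw [hva']; simp
    · rw [hvb']; simp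
  have hsx := fun p => hPi.supp p _ _ (hR.pi p)
  have hL1 : ∀ p, Lk c.Ga g.RE (o p).1.1 (o p).1.2 (List.ofFn (o p).2.1) := fun p =>
    g.lk_of_Rl (hsx p).2.2.1 (c.adm_one (hlet p)) (hR.l1 p)
  have hadm2 : ∀ p, c.adm τ true 9 (g.sv Fp (o p).1.1) (g.sv Fp (o p).1.2) := fun p =>
    c.adm_star (hlet p) (hstar.let' _ (hx p)) (hstar.let' _ (hy p))
  have hL2 : ∀ p, Lk c.Ga g.RE (g.sv Fp (o p).1.1) (g.sv Fp (o p).1.2)
      (List.ofFn (o p).2.2) := fun p => g.lk_of_Rl (hsx p).2.2.2.1 (hadm2 p) (hR.l2 p)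
  have hE1 : ∀ p j, (o p).2.1 j ∈ g.RE := fun p j =>
    ⟨τ, (g.res.supp τ _ _ (hsx p).2.2.1 (c.adm_one (hlet p)) _ (hR.l1 p)).1 j⟩
  have hE2 : ∀ p j, (o p).2.2 j ∈ g.RE := fun p j =>
    ⟨τ, (g.res.supp τ _ _ (hsx p).2.2.2.1 (hadm2 p) _ (hR.l2 p)).1 j⟩
  have hmem1 : ∀ p v, v ∈ flat (op p).l1 → ∃ j, v = ((o p).2.1 j).1 ∨ v = ((o p).2.1 j).2 := by
    intro p v hv
    obtain ⟨e, he, hv⟩ := mem_flat.1 hv
    obtain ⟨j, rfl⟩ := List.mem_ofFn.1 he
    exact ⟨j, hv⟩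
  have hmem2 : ∀ p v, v ∈ flat (op p).l2 → ∃ j, v = ((o p).2.2 j).1 ∨ v = ((o p).2.2 j).2 := by
    intro p v hv
    obtain ⟨e, he, hv⟩ := mem_flat.1 hv
    obtain ⟨j, rfl⟩ := List.mem_ofFn.1 he
    exact ⟨j, hv⟩
  have hused : ∀ p v, v ∈ (op p).used → ∃ e ∈ g.RE, (v = e.1 ∨ v = e.2) ∧
      (∃ j, e = (o p).2.1 j ∨ e = (o p).2.2 j) := by
    intro p v hv
    unfold Opt.used at hv
    rw [List.mem_append] at hv
    rcases hv with hv | hv
    · obtain ⟨j, hj⟩ := hmem1 p v hv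
      exact ⟨_, hE1 p j, hj, j, Or.inl rfl⟩
    · obtain ⟨j, hj⟩ := hmem2 p v hv
      exact ⟨_, hE2 p j, hj, j, Or.inr rfl⟩
  have hgood : GoodOpts c.Ga g.RE g.gs.vx Φ seg ((Finset.univ : Finset κ).toList.map op) := by
    refine ⟨?_, ?_, ?_, ?_, ?_⟩
    · intro o' ho'
      obtain ⟨p, -, rfl⟩ := List.mem_map.1 ho'
      rw [hva, hvb]; exact hL1 p
    · intro o' ho'
      obtain ⟨p, -, rfl⟩ := List.mem_map.1 ho'
      rw [hva', hvb']; exact hL2 p
    · intro o' ho'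
      obtain ⟨p, -, rfl⟩ := List.mem_map.1 ho'
      intro v hv hv'
      obtain ⟨j, hj⟩ := hmem1 p v hv
      obtain ⟨j', hj'⟩ := hmem2 p v hv'
      exact hR.d12 p j j' (g.re_inj (hE1 p j) (hE2 p j') hj hj')
    · intro o' ho'
      obtain ⟨p, -, rfl⟩ := List.mem_map.1 ho'
      intro v hv q hq
      obtain ⟨e, he, h1, j, h2⟩ := hused p v hv
      obtain ⟨e', he', h3, h4⟩ := h.us q v hq
      have h5 := g.re_inj he he' h1 h4
      rw [← h5] at h3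
      rcases h2 with rfl | rfl
      · exact (hR.new p j).1 h3
      · exact (hR.new p j).2 h3
    · rw [List.pairwise_map]
      refine (Finset.nodup_toList _).imp ?_
      intro p q hpq
      constructor
      · intro v hv hv'
        obtain ⟨e, he, h1, j, h2⟩ := hused p v hv
        obtain ⟨e', he', h3, j', h4⟩ := hused q v hv'
        have h5 := g.re_inj he he' h1 h3
        have h6 := hR.dd p q hpq j j'
        have h7 := hR.dd q p hpq.symm j' j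
        rcases h2 with h2 | h2 <;> rcases h4 with h4 | h4
        · exact h6.1 (h2.symm.trans (h5.trans h4))
        · exact h6.2.1 (h2.symm.trans (h5.trans h4))
        · exact h7.2.1 ((h2.symm.trans (h5.trans h4)).symm)
        · exact h6.2.2 (h2.symm.trans (h5.trans h4))
      · intro q' hq' hq''
        exact (Finset.disjoint_left.1 (hR.dv p q hpq)) (hports p q' hq') (hports q q' hq'')
  haveI : Finite g.Pt := by
    unfold Gad.Pt GS.Port GS.Tok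
    infer_instance
  obtain ⟨Φ', seg', g1, g2, g3, g4, g5⟩ := round h.st flipB_ffi _ hgood
  have hmemop : ∀ p, op p ∈ (Finset.univ : Finset κ).toList.map op := fun p =>
    List.mem_map.2 ⟨p, Finset.mem_toList.2 (Finset.mem_univ p), rfl⟩
  refine ⟨Φ', seg', fun v => Un v ∨ v ∈ Vp, fun e => UE e ∨ e ∈ Ep, ?_, g2, ?_⟩
  · refine ⟨g1, fun p q hpq => g2 _ _ (h.mono p q hpq), ?_, ?_, ?_, ?_, ?_⟩
    · intro v hv hun
      push Not at hun
      rw [← h.fr v hv hun.1]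
      refine (g4 _ ?_).1
      intro o' ho' hpo
      obtain ⟨p, -, rfl⟩ := List.mem_map.1 ho'
      have h1 := hports p _ hpo
      rw [g.vx_sp] at h1
      exact hun.2 (hR.vp p h1)
    · intro p v hv
      rcases g5 p v hv with ⟨d, h6⟩ | ⟨o', ho', h6⟩
      · obtain ⟨e, he, h7, h8⟩ := h.us d v h6
        exact ⟨e, he, Or.inl h7, h8⟩
      · obtain ⟨q, -, rfl⟩ := List.mem_map.1 ho'
        obtain ⟨e, he, h7, j, h8⟩ := hused q v h6
        refine ⟨e, he, Or.inr ?_, h7⟩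
        rcases h8 with rfl | rfl
        · exact (hR.ep q j).1
        · exact (hR.ep q j).2
    · intro τ' x y hxy ha
      have h1 := pr_or (g.res.law τ' x y hxy ha) (fun z => ∃ j, UE (z j))
        (fun z => ∃ j, z j ∈ Ep) (fun z => ∃ j, UE (z j) ∨ z j ∈ Ep) (by
          rintro z ⟨j, h1 | h1⟩
          · exact Or.inl ⟨j, h1⟩
          · exact Or.inr ⟨j, h1⟩)
      have h2 := h.i1 τ' x y hxy ha
      have h3 := hR.i1 τ' x y hxy ha
      push_cast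
      linarith
    · intro M hM y
      have h1 := h.i2 M hM y
      have h2 := hR.i2 M hM y
      have h3 : ∑ x, ind (Un x ∨ x ∈ Vp) * M y x ≤
          ∑ x, ind (Un x) * M y x + ∑ x, ind (x ∈ Vp) * M y x := by
        rw [← Finset.sum_add_distrib]
        apply Finset.sum_le_sum
        intro x _
        rw [← add_mul]
        apply mul_le_mul_of_nonneg_right _ ((hPKS _ _ hM.1).nn y x)
        by_cases h4 : Un x
        · rw [ind_of h4, ind_of (Or.inl h4)]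
          have := ind_nonneg (x ∈ Vp)
          linarith
        · by_cases h5 : x ∈ Vp
          · rw [ind_of h5, ind_of (Or.inr h5)]
            have := ind_nonneg (Un x)
            linarith
          · rw [ind_not (not_or.2 ⟨h4, h5⟩)]
            have := ind_nonneg (x ∈ Vp)
            have := ind_nonneg (Un x)
            linarith
      push_cast
      linarith
    · intro v hv
      have h1 := h.i3 v hv
      have h2 := hR.i3 ⟨v, hv⟩
      have h3 : Set.ncard {w | w ∈ g.cyc Fp v ∧ (Un w ∨ w ∈ Vp)} ≤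
          Set.ncard {w | w ∈ g.cyc Fp v ∧ Un w} + (g.cyc Fp v ∩ Vp).card := by
        rw [← Set.ncard_coe_finset (g.cyc Fp v ∩ Vp)]
        refine le_trans (Set.ncard_le_ncard ?_ (Set.toFinite _)) (Set.ncard_union_le _ _)
        rintro w ⟨hw1, hw2 | hw2⟩
        · exact Or.inl ⟨hw1, hw2⟩
        · right
          rw [Finset.mem_coe, Finset.mem_inter]
          exact ⟨hw1, hw2⟩
      calc 1000 * c.k * Set.ncard {w | w ∈ g.cyc Fp v ∧ (Un w ∨ w ∈ Vp)}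
          ≤ 1000 * c.k * (Set.ncard {w | w ∈ g.cyc Fp v ∧ Un w} + (g.cyc Fp v ∩ Vp).card) :=
            Nat.mul_le_mul_left _ h3
        _ = 1000 * c.k * Set.ncard {w | w ∈ g.cyc Fp v ∧ Un w} +
            1000 * c.k * (g.cyc Fp v ∩ Vp).card := by ring
        _ ≤ r * (g.cyc Fp v).card + (g.cyc Fp v).card := by
            exact Nat.add_le_add h1 h2
        _ = (r + 1) * (g.cyc Fp v).card := by ring
  · intro p
    exact ⟨_, _, hR.pi p, hx p, hy p, g3 _ (hmemop p)⟩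

end

end Pool.Agent.Lib.MP_688fd0_co.TF
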