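import Pool.Agent.Lib.MP_688fd0_co.TF.H57.Brg4

/-!
# Theorem F (port of TE), bridge part 5: uniform laws of the pickers; one round with all classes as pickers
-/

namespace Pool.Agent.Lib.MP_688fd0_co.TF

open Pool.Agent.Lib.MP_688fd0_co.TE

open Pool.Agent.Lib.MP_688fd0_co

universe u

section unif

variable {G : Type u} [Group G] [Fintype G] [DecidableEq G]

theorem sum_ind_card {α : Type*} [Fintype α] [DecidableEq α] (s : Finset α) :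
    ∑ a, ind (a ∈ s) = s.card := by
  have h : ∀ a, ind (a ∈ s) = if a ∈ s then (1 : ℝ) else 0 := by
    intro a
    by_cases h : a ∈ s
    · rw [ind_of h, if_pos h]
    · rw [ind_not h, if_neg h]
  rw [Finset.sum_congr rfl (fun a _ => h a)]
  simp

theorem sum_ind_left (D : Finset G) (x : G) : ∑ y, ind (x⁻¹ * y ∈ D) = D.card := by
  rw [← sum_ind_card D]
  exact Fintype.sum_equiv (Equiv.mulLeft x⁻¹) _ _ (fun y => rfl)

theorem sum_ind_right (D : Finset G) (y : G) : ∑ x, ind (x⁻¹ * y ∈ D) = D.card := by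
  rw [← sum_ind_card D]
  exact Fintype.sum_equiv ((Equiv.inv G).trans (Equiv.mulRight y)) _ _ (fun x => rfl)

/-- The uniform laws. -/
theorem unif_law {κ : Type u} [Fintype κ] [DecidableEq κ] (P : κ → Finset (G × G)) (L : ℝ)
    (hL : 0 < L) (hP : ∀ p, L ≤ (P p).card) (D : Finset G)
    (hD : ∀ p, ∀ e ∈ P p, e.1⁻¹ * e.2 ∈ D)
    (huniq : ∀ p q x y y', (x, y) ∈ P p → (x, y') ∈ P q → p = q) :
    (∀ p, ∑ x, ∑ y, ind ((x, y) ∈ P p) / ((P p).card : ℝ) = 1) ∧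
    (∀ x, ∑ p, ∑ y, ind ((x, y) ∈ P p) / ((P p).card : ℝ) ≤ D.card / L) ∧
    (∀ y, ∑ p, ∑ x, ind ((x, y) ∈ P p) / ((P p).card : ℝ) ≤ D.card / L) := by
  have key : ∀ x y, ∑ p, ind ((x, y) ∈ P p) / ((P p).card : ℝ) ≤ ind (x⁻¹ * y ∈ D) / L := by
    intro x y
    by_cases h : ∃ p, (x, y) ∈ P p
    · obtain ⟨p0, h0⟩ := h
      rw [Finset.sum_eq_single p0]
      · rw [ind_of h0, ind_of (hD p0 _ h0)]
        exact one_div_le_one_div_of_le hL (hP p0)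
      · intro q _ hq
        rw [ind_not, zero_div]
        intro h1
        exact hq (huniq q p0 x y y h1 h0)
      · intro h1; exact absurd (Finset.mem_univ _) h1
    · push Not at h
      rw [Finset.sum_eq_zero]
      · exact div_nonneg (ind_nonneg _) hL.le
      · intro p _
        rw [ind_not (h p), zero_div]
  refine ⟨?_, ?_, ?_⟩
  · intro p
    have h1 : ∑ x, ∑ y, ind ((x, y) ∈ P p) / ((P p).card : ℝ) =
        (∑ e : G × G, ind (e ∈ P p)) / ((P p).card : ℝ) := by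
      rw [Fintype.sum_prod_type, Finset.sum_div]
      apply Finset.sum_congr rfl
      intro x _
      rw [Finset.sum_div]
    rw [h1, sum_ind_card]
    have h2 : (0 : ℝ) < (P p).card := lt_of_lt_of_le hL (hP p)
    exact div_self h2.ne'
  · intro x
    rw [Finset.sum_comm]
    calc ∑ y, ∑ p, ind ((x, y) ∈ P p) / ((P p).card : ℝ)
        ≤ ∑ y, ind (x⁻¹ * y ∈ D) / L := Finset.sum_le_sum (fun y _ => key x y)
      _ = D.card / L := by rw [← Finset.sum_div, sum_ind_left]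
  · intro y
    rw [Finset.sum_comm]
    calc ∑ x, ∑ p, ind ((x, y) ∈ P p) / ((P p).card : ℝ)
        ≤ ∑ x, ind (x⁻¹ * y ∈ D) / L := Finset.sum_le_sum (fun x _ => key x y)
      _ = D.card / L := by rw [← Finset.sum_div, sum_ind_right]

end unif

section

variable {G : Type u} [Group G] [Fintype G] [DecidableEq G] {c : Ctx G} {N : ℕ} (g : Gad c N)

/-- Vertices outside the gadgets in the same component. -/
def Gad.rv (Φ : g.Pt → g.Pt) (v w : G) : Prop :=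
  ∃ (hv : ¬ g.W v) (hw : ¬ g.W w), Rel2 Φ flipB (g.tv v hv, false) (g.tv w hw, false)

variable {g}

theorem Gad.rv.symm {Φ : g.Pt → g.Pt} {v w : G} (h : g.rv Φ v w) : g.rv Φ w v := by
  obtain ⟨hv, hw, h1⟩ := h
  exact ⟨hw, hv, h1.symm⟩

theorem Gad.rv.trans {Φ : g.Pt → g.Pt} {v w z : G} (h : g.rv Φ v w) (h' : g.rv Φ w z) :
    g.rv Φ v z := by
  obtain ⟨hv, hw, h1⟩ := h
  obtain ⟨hw', hz, h2⟩ := h'
  exact ⟨hv, hz, h1.trans h2⟩

theorem Gad.rv.refl {Φ : g.Pt → g.Pt} {v : G} (hv : ¬ g.W v) : g.rv Φ v v :=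
  ⟨hv, hv, Rel2.refl _ _ _⟩

theorem Gad.rv_sp {Fp : Equiv.Perm g.Tk} {Φ : g.Pt → g.Pt} {v w : G} (hv : ¬ g.W v)
    (hw : ¬ g.W w) : Rel2 Φ flipB (g.sp Fp (g.tv v hv)) (g.sp Fp (g.tv w hw)) ↔ g.rv Φ v w := by
  have key : ∀ v (hv : ¬ g.W v), Rel2 Φ flipB (g.sp Fp (g.tv v hv)) (g.tv v hv, false) := by
    intro v hv
    have h1 : g.sp Fp (g.tv v hv) = (g.tv v hv, (g.sp Fp (g.tv v hv)).2) :=
      Prod.ext (g.sp_fst Fp _) rfl
    rw [h1]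
    exact rel_port _ _ _
  constructor
  · intro h
    exact ⟨hv, hw, ((key v hv).symm.trans h).trans (key w hw)⟩
  · rintro ⟨_, _, h⟩
    exact ((key v hv).trans h).trans (key w hw).symm

variable (g)

/-- One round in which every class (inside its zone) is a picker. -/
theorem Gad.crnd (hPKS : ∀ N M, c.PK N M → SS M) (hRND : RNDF_S.{u}) (hN : 6 ≤ N) {m : ℕ}
    (hm : c.mOK m) (hm8 : 8 ≤ m) {lv : G → ZMod m}
    (io : ∀ τ, ∀ e ∈ g.res.E τ, lv (g.i τ e) = lv (g.o τ e))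
    (one : ∀ e ∈ g.res.E true, lv (g.i true e) = 0) (Fp : Equiv.Perm g.Tk)
    (hF : ∀ t, g.arc lv (g.gs.vx (t, false)) (g.gs.vx (Fp t, true)))
    {r : ℕ} {Φ : g.Pt → g.Pt} {seg : g.Pt → List (G × G)} {Un : G → Prop} {UE : G × G → Prop}
    (h : g.Sta Fp r Φ seg Un UE) (hr : (r : ℝ) * (1 / c.X ^ 150) ≤ 1 / c.X ^ 100) (τ : Bool)
    (Z : G → G → Prop) (hZ1 : ∀ x, Z x x) (hZ2 : ∀ x y, Z x y → Z y x)
    (hZ3 : ∀ x y z, Z x y → Z y z → Z x z) (D : Finset G) (hD : ∀ s ∈ D, s ∈ Lt c.B c.C τ)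
    (L : ℝ) (hL : 0 < L)
    (hDL : (D.card : ℝ) / L ≤ if τ then 1 / c.X ^ 100000 else 1 / c.X ^ 990)
    (hiso : ∀ v, ¬ g.W v → (∃ w, ¬ g.W w ∧ Z v w ∧ ¬ g.rv Φ v w) → ∃ P : Finset (G × G),
      L ≤ P.card ∧ ∀ p ∈ P, (¬ g.W p.1 ∧ ¬ Un p.1 ∧ Z v p.1 ∧ g.rv Φ v p.1) ∧
        (¬ g.W p.2 ∧ ¬ Un p.2 ∧ Z v p.2 ∧ ¬ g.rv Φ v p.2) ∧ p.1⁻¹ * p.2 ∈ D) :
    ∃ (Φ' : g.Pt → g.Pt) (seg' : g.Pt → List (G × G)) (Un' : G → Prop) (UE' : G × G → Prop),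
      g.Sta Fp (r + 1) Φ' seg' Un' UE' ∧ (∀ p q, Rel2 Φ flipB p q → Rel2 Φ' flipB p q) ∧
      ∀ v, ¬ g.W v → (∃ w, ¬ g.W w ∧ Z v w ∧ ¬ g.rv Φ v w) → ∃ x y, Z v x ∧ Z v y ∧
        g.rv Φ v x ∧ ¬ g.rv Φ v y ∧ g.rv Φ' x y := by
  classical
  -- the classes
  let cls : G → Finset G := fun v => Finset.univ.filter (fun w => Z v w ∧ g.rv Φ v w)
  have hcls : ∀ v w, w ∈ cls v ↔ Z v w ∧ g.rv Φ v w := by
    intro v w
    simp only [cls, Finset.mem_filter, Finset.mem_univ, true_and]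
  have hclseq : ∀ v w, w ∈ cls v → cls w = cls v := by
    intro v w hw
    rw [hcls] at hw
    ext z
    rw [hcls, hcls]
    exact ⟨fun h1 => ⟨hZ3 _ _ _ hw.1 h1.1, hw.2.trans h1.2⟩,
      fun h1 => ⟨hZ3 _ _ _ (hZ2 _ _ hw.1) h1.1, hw.2.symm.trans h1.2⟩⟩
  let κ : Type u := {K : Finset G // ∃ v, ¬ g.W v ∧ K = cls v ∧
    ∃ w, ¬ g.W w ∧ Z v w ∧ ¬ g.rv Φ v w}
  choose vp hvW hvK hvw using fun p : κ => p.2
  choose P hPL hPm using fun p : κ => hiso (vp p) (hvW p) (hvw p)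
  have huniq : ∀ p q x y y', (x, y) ∈ P p → (x, y') ∈ P q → p = q := by
    intro p q x y y' h1 h2
    have h3 := (hPm p _ h1).1
    have h4 := (hPm q _ h2).1
    apply Subtype.ext
    rw [hvK p, hvK q, ← hclseq (vp p) x ((hcls _ _).2 ⟨h3.2.2.1, h3.2.2.2⟩),
      ← hclseq (vp q) x ((hcls _ _).2 ⟨h4.2.2.1, h4.2.2.2⟩)]
  obtain ⟨u1, u2, u3⟩ := unif_law P L hL hPL D (fun p e he => (hPm p e he).2.2) huniq
  have hκ : Fintype.card κ ≤ Fintype.card G ^ 2 := by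
    have h1 : Fintype.card κ ≤ Fintype.card G := by
      apply Fintype.card_le_of_injective vp
      intro p q hpq
      apply Subtype.ext
      rw [hvK p, hvK q, hpq]
    have h2 : 0 < Fintype.card G := Fintype.card_pos
    nlinarith
  have hpos : ∀ p, (0 : ℝ) < (P p).card := fun p => lt_of_lt_of_le hL (hPL p)
  have hmemP : ∀ p x y, ind ((x, y) ∈ P p) / ((P p).card : ℝ) ≠ 0 → (x, y) ∈ P p := by
    intro p x y h1
    by_contra h2
    apply h1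
    rw [ind_not h2, zero_div]
  obtain ⟨Φ', seg', Un', UE', g1, g2, g3⟩ := g.rnd hPKS hRND hN hm hm8 io one Fp hF h hr τ κ
    (fun p x y => ind ((x, y) ∈ P p) / ((P p).card : ℝ)) (D.card / L) hκ
    (fun p x y => div_nonneg (ind_nonneg _) (hpos p).le) u1
    (by
      intro p x y hp
      obtain ⟨h1, h2, h3⟩ := hPm p _ (hmemP p x y hp)
      refine ⟨h1.1, h2.1, h1.2.1, h2.2.1, hD _ h3, ?_⟩
      rw [g.rv_sp h1.1 h2.1]
      intro h4
      exact h2.2.2.2 (h1.2.2.2.trans h4))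
    u2 u3 hDL
  refine ⟨Φ', seg', Un', UE', g1, g2, ?_⟩
  intro v hv hw
  let p : κ := ⟨cls v, v, hv, rfl, hw⟩
  obtain ⟨x, y, hp, hx, hy, hxy⟩ := g3 p
  obtain ⟨h1, h2, h3⟩ := hPm p _ (hmemP p x y hp)
  have h4 : v ∈ cls (vp p) := by
    have h5 : cls v = cls (vp p) := hvK p
    rw [← h5, hcls]
    exact ⟨hZ1 v, Gad.rv.refl hv⟩
  rw [hcls] at h4
  refine ⟨x, y, hZ3 _ _ _ (hZ2 _ _ h4.1) h1.2.2.1, hZ3 _ _ _ (hZ2 _ _ h4.1) h2.2.2.1,
    h4.2.symm.trans h1.2.2.2, ?_, (g.rv_sp hx hy).1 hxy⟩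
  intro h5
  exact h2.2.2.2 (h4.2.trans h5)

end

end Pool.Agent.Lib.MP_688fd0_co.TF
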