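import Pool.Agent.Lib.MP_688fd0_co.TF.H57.Brg5

/-!
# Theorem F (port of TE), bridge part 6: the two phases and the end
-/

namespace Pool.Agent.Lib.MP_688fd0_co.TF

open Pool.Agent.Lib.MP_688fd0_co.TE

open Pool.Agent.Lib.MP_688fd0_co

universe u

section

variable {G : Type u} [Group G] [Fintype G] [DecidableEq G] {c : Ctx G} {N : ℕ} (g : Gad c N)

theorem Ctx.k_log (c : Ctx G) : 1 ≤ c.k ∧ Real.log (Fintype.card G) ≤ c.k := by
  have h0 : (0 : ℝ) ≤ Real.log (Fintype.card G) := by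
    apply Real.log_nonneg
    exact_mod_cast Fintype.card_pos
  have h1 := c.hkr
  have h2 : (1 : ℝ) ≤ ((c.r0 : ℝ) + 1) ^ 2 := by
    have : (0 : ℝ) ≤ c.r0 := Nat.cast_nonneg _
    nlinarith
  have h3 : Real.log (Fintype.card G) + 1 ≤
      100 * ((c.r0 : ℝ) + 1) ^ 2 * (Real.log (Fintype.card G) + 1) := by
    nlinarith
  constructor
  · have : (1 : ℝ) ≤ c.k := by linarith
    exact_mod_cast this
  · linarith

/-- The numerical facts used in the phases. -/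
structure Ctx.Nm (c : Ctx G) : Prop where
  x1 : 10 ^ 6 ≤ c.X
  xk : (4 * c.k : ℝ) ≤ c.X
  kx : (c.k : ℝ) ≤ c.X
  b : c.X ^ 200000 ≤ c.b

theorem Ctx.nm (c : Ctx G) (hNUM : NUMF_S.{u}) : c.Nm := by
  obtain ⟨h1, h2, -, -, -, -, -, h3, -⟩ := hNUM G c
  have hk : (1 : ℝ) ≤ c.k := by exact_mod_cast c.k_log.1
  have h4 : (4 * c.k : ℝ) ≤ c.X := by
    refine le_trans ?_ h2
    have h5 : (1 : ℝ) ≤ 10 ^ 6 * c.k := by linarith
    have h6 : (10 ^ 6 * c.k : ℝ) ≤ (10 ^ 6 * c.k : ℝ) ^ 200 := le_self_pow₀ h5 (by norm_num)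
    linarith
  exact ⟨h1, h4, by linarith, h3⟩

theorem Ctx.Nm.r_small {c : Ctx G} (h : c.Nm) {r : ℕ} (hr : r ≤ 4 * c.k) (a d : ℕ)
    (had : d + 1 ≤ a) : (r : ℝ) * (1 / c.X ^ a) ≤ 1 / c.X ^ d := by
  have hX : (1 : ℝ) ≤ c.X := le_trans (by norm_num) h.x1
  have hX0 : (0 : ℝ) < c.X := by linarith
  have h1 : (r : ℝ) ≤ c.X := by
    have : (r : ℝ) ≤ ((4 * c.k : ℕ) : ℝ) := by exact_mod_cast hr
    push_cast at this
    linarith [h.xk]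
  rw [mul_one_div, div_le_div_iff₀ (by positivity) (by positivity), one_mul]
  calc (r : ℝ) * c.X ^ d ≤ c.X * c.X ^ d := by gcongr
    _ = c.X ^ (d + 1) := by ring
    _ ≤ c.X ^ a := pow_le_pow_right₀ hX had

theorem Ctx.card_le (c : Ctx G) : Fintype.card G ≤ 2 ^ (2 * c.k) := by
  have h1 := c.k_log.2
  have h2 : (0 : ℝ) < Fintype.card G := by exact_mod_cast Fintype.card_pos
  have h3 : (Fintype.card G : ℝ) ≤ Real.exp c.k := by
    rw [← Real.exp_log h2]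
    exact Real.exp_le_exp.2 h1
  have h4 : Real.exp c.k = Real.exp 1 ^ c.k := by
    rw [← Real.exp_nat_mul, mul_one]
  have h5 : Real.exp 1 ≤ 4 := by
    have := Real.exp_one_lt_d9
    linarith
  have h6 : (Fintype.card G : ℝ) ≤ 4 ^ c.k := by
    rw [h4] at h3
    exact h3.trans (pow_le_pow_left₀ (Real.exp_pos 1).le h5 _)
  rw [pow_mul]
  have h7 : (Fintype.card G : ℝ) ≤ ((2 ^ 2) ^ c.k : ℕ) := by
    push_cast
    norm_num
    exact h6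
  exact_mod_cast h7

/-- Half of the vertices of every cycle piece are available. -/
theorem Gad.avail {m : ℕ} (hm8 : 8 ≤ m) {lv : G → ZMod m}
    (io : ∀ τ, ∀ e ∈ g.res.E τ, lv (g.i τ e) = lv (g.o τ e))
    (one : ∀ e ∈ g.res.E true, lv (g.i true e) = 0) (Fp : Equiv.Perm g.Tk)
    (hF : ∀ t, g.arc lv (g.gs.vx (t, false)) (g.gs.vx (Fp t, true)))
    {r : ℕ} {Φ : g.Pt → g.Pt} {seg : g.Pt → List (G × G)} {Un : G → Prop} {UE : G × G → Prop}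
    (h : g.Sta Fp r Φ seg Un UE) (hr : r ≤ 4 * c.k) {v : G} (hv : ¬ g.W v) (S : Finset G)
    (hS : ∀ w ∈ g.cyc Fp v, ¬ Un w → w ∈ S) : m ≤ 16 * S.card := by
  classical
  have h1 := g.cyc_card hm8 io one Fp hF hv
  have h2 := h.i3 v hv
  have hk := c.k_log.1
  have h3 : (g.cyc Fp v).card ≤ Set.ncard {w | w ∈ g.cyc Fp v ∧ Un w} + S.card := by
    rw [← Set.ncard_coe_finset (g.cyc Fp v), ← Set.ncard_coe_finset S]
    refine le_trans (Set.ncard_le_ncard ?_ (Set.toFinite _)) (Set.ncard_union_le _ _)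
    intro w hw
    by_cases h4 : Un w
    · exact Or.inl ⟨hw, h4⟩
    · exact Or.inr (hS w hw h4)
  have h5 : c.k * (250 * Set.ncard {w | w ∈ g.cyc Fp v ∧ Un w}) ≤
      c.k * (g.cyc Fp v).card := by
    have h6 : r * (g.cyc Fp v).card ≤ 4 * c.k * (g.cyc Fp v).card := Nat.mul_le_mul_right _ hr
    have h7 := h2.trans h6
    nlinarith
  have h8 := Nat.le_of_mul_le_mul_left h5 (by omega)
  omega

theorem Gad.cyc_rv {Fp : Equiv.Perm g.Tk}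
    {r : ℕ} {Φ : g.Pt → g.Pt} {seg : g.Pt → List (G × G)} {Un : G → Prop} {UE : G × G → Prop}
    (h : g.Sta Fp r Φ seg Un UE) {v w : G} (hw : w ∈ g.cyc Fp v) :
    ¬ g.W w ∧ v⁻¹ * w ∈ c.H ∧ g.rv Φ v w := by
  obtain ⟨hv, hw, h1, h2⟩ := g.mem_cyc.1 hw
  exact ⟨hw, h1, hv, hw, h.mono _ _ (rel_of_sameCycle Fp h2 _ _)⟩

/-- The V-ports of a set of vertices. -/
def Gad.vp (A : G → Prop) : Set g.Pt := {q | ∃ v, ∃ hv : ¬ g.W v, A v ∧ q = (g.tv v hv, false)}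

theorem Gad.vp_card (A : G → Prop) (Φ : g.Pt → g.Pt) :
    ncl (Rel2 Φ flipB) (g.vp A) ≤ 2 ^ (2 * c.k) := by
  classical
  have : Finite g.Pt := by
    unfold Gad.Pt GS.Port GS.Tok
    infer_instance
  refine (ncl_le_card _ _).trans (le_trans ?_ c.card_le)
  rw [← Nat.card_eq_fintype_card, ← Set.ncard_univ]
  apply Set.ncard_le_ncard_of_injOn g.gs.vx (fun _ _ => Set.mem_univ _) _ (Set.toFinite _)
  rintro _ ⟨v, hv, -, rfl⟩ _ ⟨w, hw, -, rfl⟩ h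
  rw [g.vx_tv, g.vx_tv] at h
  subst h
  rfl

/-- Halving for one round. -/
theorem Gad.halve1 {Φ Φ' : g.Pt → g.Pt} (A : G → Prop) (Z : G → G → Prop)
    (hAZ : ∀ v w, A v → A w → Z v w) (hZA : ∀ v w, A v → Z v w → A w)
    (h1 : ∀ p q, Rel2 Φ flipB p q → Rel2 Φ' flipB p q)
    (h2 : ∀ v, ¬ g.W v → (∃ w, ¬ g.W w ∧ Z v w ∧ ¬ g.rv Φ v w) → ∃ x y, Z v x ∧ Z v y ∧
        g.rv Φ v x ∧ ¬ g.rv Φ v y ∧ g.rv Φ' x y) (M : ℕ)
    (hM : ncl (Rel2 Φ flipB) (g.vp A) ≤ 2 ^ (M + 1)) :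
    ncl (Rel2 Φ' flipB) (g.vp A) ≤ 2 ^ M := by
  have : Finite g.Pt := by
    unfold Gad.Pt GS.Port GS.Tok
    infer_instance
  refine halve_round (Rel2.equivalence _ _) (Rel2.equivalence _ _) h1 (g.vp A) ?_ (2 ^ M)
    (by rw [pow_succ] at hM; omega) Nat.one_le_two_pow
  rintro _ ⟨v, hv, hAv, rfl⟩ ⟨_, ⟨w, hw, hAw, rfl⟩, hvw⟩
  obtain ⟨x, y, a1, a2, ⟨_, hx, a3⟩, a4, ⟨_, hy, a5⟩⟩ := h2 v hv ⟨w, hw, hAZ v w hAv hAw, by
    rintro ⟨_, _, h3⟩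
    exact hvw h3⟩
  refine ⟨_, ⟨x, hx, hZA v x hAv a1, rfl⟩, _, ⟨y, hy, hZA v y hAv a2, rfl⟩, a3, ?_, a5⟩
  intro h3
  exact a4 ⟨hv, hy, h3⟩

end

end Pool.Agent.Lib.MP_688fd0_co.TF
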